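import Mathlib

/-! S5 / (S): Selling reduction in dimension three. -/

set_option autoImplicit false

namespace Pool.Agent.Helper22.Sym

open Matrix

/-- `f` is a superbase of `ℤ³` with the integer potentials `g`: the four vectors `f l` have sum zero and
`(g i - g j)·(f l) = δ_il - δ_jl`. -/
def Superb (f g : Fin 4 → Fin 3 → ℤ) : Prop :=
  ∑ l, f l = 0 ∧
    ∀ i j l, (g i - g j) ⬝ᵥ f l = (if i = l then 1 else 0) - (if j = l then 1 else 0)

/-- the real vector of an integer vector -/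
def toR (z : Fin 3 → ℤ) : Fin 3 → ℝ := fun i => (z i : ℝ)

theorem toR_add (x y : Fin 3 → ℤ) : toR (x + y) = toR x + toR y := by
  funext i; simp [toR]

theorem toR_neg (x : Fin 3 → ℤ) : toR (-x) = -toR x := by
  funext i; simp [toR]

/-- the bilinear form of `G` on integer vectors -/
def bil (G : Matrix (Fin 3) (Fin 3) ℝ) (x y : Fin 3 → ℤ) : ℝ := toR x ⬝ᵥ G *ᵥ toR y

theorem bil_add_left (G : Matrix (Fin 3) (Fin 3) ℝ) (x y z : Fin 3 → ℤ) :
    bil G (x + y) z = bil G x z + bil G y z := by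
  unfold bil; rw [toR_add, add_dotProduct]

theorem bil_add_right (G : Matrix (Fin 3) (Fin 3) ℝ) (x y z : Fin 3 → ℤ) :
    bil G x (y + z) = bil G x y + bil G x z := by
  unfold bil; rw [toR_add, mulVec_add, dotProduct_add]

theorem bil_neg_left (G : Matrix (Fin 3) (Fin 3) ℝ) (x z : Fin 3 → ℤ) :
    bil G (-x) z = -bil G x z := by
  unfold bil; rw [toR_neg, neg_dotProduct]

theorem bil_neg_right (G : Matrix (Fin 3) (Fin 3) ℝ) (x y : Fin 3 → ℤ) :
    bil G x (-y) = -bil G x y := by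
  unfold bil; rw [toR_neg, mulVec_neg, dotProduct_neg]

theorem bil_comm {G : Matrix (Fin 3) (Fin 3) ℝ} (hG : G.PosDef) (x y : Fin 3 → ℤ) :
    bil G x y = bil G y x := by
  have hs : Gᵀ = G := by
    have := hG.isHermitian.eq
    rwa [conjTranspose_eq_transpose_of_trivial] at this
  unfold bil
  rw [dotProduct_mulVec, ← mulVec_transpose, hs, dotProduct_comm]

/-- a positive definite form is bounded below by a multiple of the square of the norm -/
theorem form_lower {G : Matrix (Fin 3) (Fin 3) ℝ} (hG : G.PosDef) :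
    ∃ κ : ℝ, 0 < κ ∧ ∀ x : Fin 3 → ℝ, κ * ‖x‖ ^ 2 ≤ x ⬝ᵥ G *ᵥ x := by
  have hcont : Continuous fun x : Fin 3 → ℝ => x ⬝ᵥ G *ᵥ x := by
    simp only [dotProduct, mulVec, Fin.sum_univ_three]
    fun_prop
  have hpos : ∀ x : Fin 3 → ℝ, x ≠ 0 → 0 < x ⬝ᵥ G *ᵥ x := by
    intro x hx
    have := hG.dotProduct_mulVec_pos hx
    simpa using this
  have hne : (Metric.sphere (0 : Fin 3 → ℝ) 1).Nonempty := by
    refine ⟨fun _ => 1, ?_⟩
    rw [mem_sphere_zero_iff_norm]
    simp [pi_norm_const]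
  obtain ⟨x0, hx0, hmin⟩ := (isCompact_sphere (0 : Fin 3 → ℝ) 1).exists_isMinOn hne
    hcont.continuousOn
  have hx0n : ‖x0‖ = 1 := mem_sphere_zero_iff_norm.1 hx0
  have hx00 : x0 ≠ 0 := by
    intro h
    rw [h, norm_zero] at hx0n
    exact zero_ne_one hx0n
  refine ⟨x0 ⬝ᵥ G *ᵥ x0, hpos x0 hx00, fun x => ?_⟩
  by_cases hx : x = 0
  · subst hx; simp
  · have hxn : ‖x‖ ≠ 0 := norm_ne_zero_iff.2 hx
    have hu : ‖x‖⁻¹ • x ∈ Metric.sphere (0 : Fin 3 → ℝ) 1 := by
      rw [mem_sphere_zero_iff_norm, norm_smul, norm_inv, norm_norm, inv_mul_cancel₀ hxn]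
    have h1 := isMinOn_iff.1 hmin _ hu
    simp only [mulVec_smul, smul_dotProduct, dotProduct_smul, smul_eq_mul] at h1
    have h2 : 0 < ‖x‖ := norm_pos_iff.2 hx
    have h3 : ‖x‖⁻¹ * (‖x‖⁻¹ * (x ⬝ᵥ G *ᵥ x)) * ‖x‖ ^ 2 = x ⬝ᵥ G *ᵥ x := by
      field_simp
    calc (x0 ⬝ᵥ G *ᵥ x0) * ‖x‖ ^ 2 ≤ ‖x‖⁻¹ * (‖x‖⁻¹ * (x ⬝ᵥ G *ᵥ x)) * ‖x‖ ^ 2 :=
          mul_le_mul_of_nonneg_right h1 (by positivity)
      _ = x ⬝ᵥ G *ᵥ x := h3

theorem sublevel_finite {G : Matrix (Fin 3) (Fin 3) ℝ} (hG : G.PosDef) (R : ℝ) :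
    {z : Fin 3 → ℤ | bil G z z ≤ R}.Finite := by
  obtain ⟨κ, hκ, h⟩ := form_lower hG
  obtain ⟨N, hN⟩ := exists_nat_gt (max (R / κ) 1)
  refine (Set.finite_Icc (fun _ : Fin 3 => -(N : ℤ)) (fun _ => (N : ℤ))).subset ?_
  intro z hz
  have h1 : κ * ‖toR z‖ ^ 2 ≤ R := (h (toR z)).trans hz
  have h2 : ‖toR z‖ ^ 2 ≤ R / κ := by
    rw [le_div_iff₀ hκ]; linarith
  have hN1 : (1 : ℝ) < N := (le_max_right _ _).trans_lt hN
  have h3 : ‖toR z‖ ≤ N := by
    by_contra hcon
    push Not at hcon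
    have h4 : (N : ℝ) * 1 < ‖toR z‖ * ‖toR z‖ := by
      have h0 : (0 : ℝ) < N := by linarith
      nlinarith
    have h5 : R / κ < N := (le_max_left _ _).trans_lt hN
    nlinarith
  have h4 : ∀ i, |z i| ≤ (N : ℤ) := by
    intro i
    have h5 : ‖toR z i‖ ≤ N := (norm_le_pi_norm (toR z) i).trans h3
    rw [Real.norm_eq_abs] at h5
    unfold toR at h5
    exact_mod_cast h5
  exact ⟨fun i => (abs_le.1 (h4 i)).1, fun i => (abs_le.1 (h4 i)).2⟩

theorem exists_other (a b : Fin 4) (hab : a ≠ b) : ∃ c d : Fin 4, c ≠ a ∧ c ≠ b ∧ d ≠ a ∧ d ≠ b ∧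
    c ≠ d ∧ (Finset.univ : Finset (Fin 4)) = {a, b, c, d} := by
  revert a b; decide

theorem sum_four {M : Type} [AddCommMonoid M] {a b c d : Fin 4} (hab : a ≠ b) (hca : c ≠ a)
    (hcb : c ≠ b) (hda : d ≠ a) (hdb : d ≠ b) (hcd : c ≠ d)
    (hu : (Finset.univ : Finset (Fin 4)) = {a, b, c, d}) (F : Fin 4 → M) :
    ∑ l, F l = F a + (F b + (F c + F d)) := by
  rw [hu, Finset.sum_insert, Finset.sum_insert, Finset.sum_insert, Finset.sum_singleton]
  · simpa using hcd
  · simp only [Finset.mem_insert, Finset.mem_singleton, not_or]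
    exact ⟨hcb.symm, hdb.symm⟩
  · simp only [Finset.mem_insert, Finset.mem_singleton, not_or]
    exact ⟨hab, hca.symm, hda.symm⟩

/-- the Selling step -/
theorem step {G : Matrix (Fin 3) (Fin 3) ℝ} (hG : G.PosDef) {f g : Fin 4 → Fin 3 → ℤ}
    (hfg : Superb f g) {a b : Fin 4} (hab : a ≠ b) (hpos : 0 < bil G (f a) (f b)) :
    ∃ f' g' : Fin 4 → Fin 3 → ℤ, Superb f' g' ∧
      ∑ l, bil G (f' l) (f' l) < ∑ l, bil G (f l) (f l) := by
  obtain ⟨c, d, hca, hcb, hda, hdb, hcd, hu⟩ := exists_other a b hab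
  have hsumZ : ∀ F : Fin 4 → (Fin 3 → ℤ), ∑ l, F l = F a + (F b + (F c + F d)) :=
    sum_four hab hca hcb hda hdb hcd hu
  have hsumR : ∀ F : Fin 4 → ℝ, ∑ l, F l = F a + (F b + (F c + F d)) :=
    sum_four hab hca hcb hda hdb hcd hu
  have hall : ∀ l, l = a ∨ l = b ∨ l = c ∨ l = d := by
    intro l
    have : l ∈ ({a, b, c, d} : Finset (Fin 4)) := hu ▸ Finset.mem_univ l
    simpa using this
  -- the values of the potentials
  have hx : ∀ i l, g i ⬝ᵥ f l = (if i = l then 1 else 0) + (g 0 ⬝ᵥ f l - if 0 = l then 1 else 0) := by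
    intro i l
    have h := hfg.2 i 0 l
    rw [sub_dotProduct] at h
    linarith
  set t : Fin 4 → ℤ := fun l => g 0 ⬝ᵥ f l - if 0 = l then 1 else 0 with ht
  have hx' : ∀ i l, g i ⬝ᵥ f l = (if i = l then 1 else 0) + t l := hx
  refine ⟨fun l => if l = a then -f a else if l = b then f b else f l + f a,
    fun l => if l = a then g c + g d - g a else g l, ⟨?_, ?_⟩, ?_⟩
  · have h0 := hfg.1
    rw [hsumZ] at h0 ⊢
    simp only [if_true, hab.symm, hca, hcb, hda, hdb, if_false]
    have h1 : f b = -(f a + (f c + f d)) := by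
      rw [eq_neg_iff_add_eq_zero, ← h0]; abel
    rw [h1]; abel
  · -- it is enough to compute all products
    have key : ∀ i l, (if i = a then g c + g d - g a else g i) ⬝ᵥ
        (if l = a then -f a else if l = b then f b else f l + f a) =
        (if i = l then 1 else 0) + (if l = a then -t a else if l = b then t b else t l + t a) := by
      intro i l
      by_cases hi : i = a
      · subst hi
        rw [if_pos rfl]
        rcases hall l with rfl | rfl | rfl | rfl
        · simp only [if_true, dotProduct_neg, sub_dotProduct, add_dotProduct, hx', hca, hda,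
            if_false]
          ring
        · simp only [hab.symm, if_false, if_true, sub_dotProduct, add_dotProduct, hx', hcb, hdb,
            hab]
          ring
        · simp only [hca, hcb, if_false, dotProduct_add, sub_dotProduct, add_dotProduct, hx',
            if_true, hcd.symm, hca.symm, hda]
          ring
        · simp only [hda, hdb, if_false, dotProduct_add, sub_dotProduct, add_dotProduct, hx',
            if_true, hcd, hda.symm, hca]
          ring
      · rw [if_neg hi]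
        rcases hall l with rfl | rfl | rfl | rfl
        · simp only [if_true, dotProduct_neg, hx', hi, if_false]
          ring
        · simp only [hab.symm, if_false, if_true, hx']
        · simp only [hca, hcb, if_false, dotProduct_add, hx', hi]
          ring
        · simp only [hda, hdb, if_false, dotProduct_add, hx', hi]
          ring
    intro i j l
    rw [sub_dotProduct]
    rw [key i l, key j l]
    ring
  · have h0 := hfg.1
    rw [hsumZ] at h0
    rw [hsumR, hsumR]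
    simp only [if_true, hab.symm, hca, hcb, hda, hdb, if_false]
    have h1 : f a + (f c + f d) = -f b := by
      rw [eq_neg_iff_add_eq_zero, ← h0]; abel
    have h2 : bil G (f a) (f a) + (bil G (f c) (f a) + bil G (f d) (f a)) =
        -bil G (f b) (f a) := by
      rw [← bil_neg_left, ← h1, bil_add_left, bil_add_left]
    have h3 := bil_comm hG (f a) (f b)
    have h4 := bil_comm hG (f a) (f c)
    have h5 := bil_comm hG (f a) (f d)
    rw [bil_neg_left, bil_neg_right, bil_add_left, bil_add_right, bil_add_right, bil_add_left,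
      bil_add_right, bil_add_right]
    linarith

/-- **Selling**: a positive definite form has an obtuse superbase.
Proof: minimise `∑ l, (f l)·G (f l)` over all superbases (finite sublevel sets); if `(f a)·G (f b) > 0` with `a ≠ b`
then `f' a = - f a`, `f' b = f b`, `f' c = f c + f a` for `c ≠ a, b` has a smaller sum (difference `2 (f a)·G (f b)`);
its potentials are `g' a = ∑_{c ≠ a, b} g c - g a` and `g' c = g c` for `c ≠ a`. -/
theorem selling (G : Matrix (Fin 3) (Fin 3) ℝ) (hG : G.PosDef) :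
    ∃ f g : Fin 4 → Fin 3 → ℤ, Superb f g ∧
      ∀ i j, i ≠ j → toR (f i) ⬝ᵥ G *ᵥ toR (f j) ≤ 0 := by
  classical
  have hbase : ∃ f g : Fin 4 → Fin 3 → ℤ, Superb f g := by
    refine ⟨![![1, 0, 0], ![0, 1, 0], ![0, 0, 1], ![-1, -1, -1]],
      ![![1, 0, 0], ![0, 1, 0], ![0, 0, 1], ![0, 0, 0]], ?_, ?_⟩
    · decide
    · decide
  have hq : ∀ z : Fin 3 → ℤ, 0 ≤ bil G z z := by
    intro z
    obtain ⟨κ, hκ, h⟩ := form_lower hG
    exact (by positivity : (0 : ℝ) ≤ κ * ‖toR z‖ ^ 2).trans (h (toR z))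
  obtain ⟨f0, g0, h0⟩ := hbase
  set S : (Fin 4 → Fin 3 → ℤ) → ℝ := fun f => ∑ l, bil G (f l) (f l) with hS
  set A : Set (Fin 4 → Fin 3 → ℤ) := {f | (∃ g, Superb f g) ∧ S f ≤ S f0} with hA
  have hAfin : A.Finite := by
    refine (Set.Finite.pi' (t := fun _ : Fin 4 => {z : Fin 3 → ℤ | bil G z z ≤ S f0})
      (fun _ => sublevel_finite hG _)).subset ?_
    intro f hf l
    refine (Finset.single_le_sum (f := fun l => bil G (f l) (f l)) (fun l _ => hq (f l))
      (Finset.mem_univ l)).trans hf.2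
  have hAne : A.Nonempty := ⟨f0, ⟨g0, h0⟩, le_rfl⟩
  obtain ⟨f, ⟨⟨g, hfg⟩, hfS⟩, hmin⟩ := Set.exists_min_image A S hAfin hAne
  refine ⟨f, g, hfg, fun i j hij => ?_⟩
  by_contra hcon
  push Not at hcon
  obtain ⟨f', g', hfg', hlt⟩ := step hG hfg hij hcon
  have hlt' : S f' < S f := hlt
  exact absurd (hmin f' ⟨⟨g', hfg'⟩, hlt'.le.trans hfS⟩) (not_le.2 hlt')

end Pool.Agent.Helper22.Sym
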