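import Mathlib
import Pool.Agent.Helper22.Sym.Selling

/-! S5 / (S): covering radius and dual minimum of three dimensional lattices (Voronoi, Foster). -/

set_option autoImplicit false

namespace Pool.Agent.Helper22.Sym

open Matrix

/-- A symmetric form on four variables with zero row sums in terms of the differences. -/
lemma alg_form (b : Fin 4 → Fin 4 → ℝ) (hs : ∀ i j, b i j = b j i) (h0 : ∀ i, ∑ j, b i j = 0)
    (x y : Fin 4 → ℝ) :
    ∑ i, ∑ j, x i * y j * b i j =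
      -(b 0 1 * ((x 0 - x 1) * (y 0 - y 1)) + b 0 2 * ((x 0 - x 2) * (y 0 - y 2))
        + b 0 3 * ((x 0 - x 3) * (y 0 - y 3)) + b 1 2 * ((x 1 - x 2) * (y 1 - y 2))
        + b 1 3 * ((x 1 - x 3) * (y 1 - y 3)) + b 2 3 * ((x 2 - x 3) * (y 2 - y 3))) := by
  have e0 := h0 0
  have e1 := h0 1
  have e2 := h0 2
  have e3 := h0 3
  simp only [Fin.sum_univ_four] at e0 e1 e2 e3 ⊢
  rw [hs 1 0] at e1 ⊢
  rw [hs 2 0, hs 2 1] at e2 ⊢
  rw [hs 3 0, hs 3 1, hs 3 2] at e3 ⊢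
  linear_combination (x 0 * y 0) * e0 + (x 1 * y 1) * e1 + (x 2 * y 2) * e2 + (x 3 * y 3) * e3

/-- the lattice coordinates: every vector is the combination of the `f l` with the coefficients `g l · v` -/
lemma repr_vec (f g : Fin 4 → Fin 3 → ℤ) (h : Superb f g) (v : Fin 3 → ℝ) :
    ∑ l, (toR (g l) ⬝ᵥ v) • toR (f l) = v := by
  obtain ⟨h0, hd⟩ := h
  -- the two inverse matrices
  let P : Matrix (Fin 3) (Fin 3) ℝ := fun i j => (((g (Fin.castSucc i)) j - (g 3) j : ℤ) : ℝ)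
  let Q : Matrix (Fin 3) (Fin 3) ℝ := fun j l => (((f (Fin.castSucc l)) j : ℤ) : ℝ)
  have hPQ : P * Q = 1 := by
    ext i l
    have := hd (Fin.castSucc i) 3 (Fin.castSucc l)
    have h3 : (3 : Fin 4) ≠ Fin.castSucc l := by
      intro h; have := congrArg Fin.val h; simp at this; omega
    rw [if_neg h3] at this
    rw [Matrix.mul_apply, Matrix.one_apply]
    have h' : ∑ j, ((g (Fin.castSucc i)) j - (g 3) j) * (f (Fin.castSucc l)) j
        = if i = l then 1 else 0 := by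
      have := this
      simp only [dotProduct, Pi.sub_apply, sub_zero, Fin.castSucc_inj] at this
      exact this
    have h2 : ((∑ j, ((g (Fin.castSucc i)) j - (g 3) j) * (f (Fin.castSucc l)) j : ℤ) : ℝ)
        = ((if i = l then 1 else 0 : ℤ) : ℝ) := by rw [h']
    push_cast at h2
    simp only [P, Q]
    push_cast
    exact h2
  have hQP : Q * P = 1 := mul_eq_one_comm.mp hPQ
  have hv : Q *ᵥ (P *ᵥ v) = v := by rw [Matrix.mulVec_mulVec, hQP, Matrix.one_mulVec]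
  have hf3 : toR (f 3) = -(toR (f 0) + toR (f 1) + toR (f 2)) := by
    funext j
    have := congrFun h0 j
    simp only [Fin.sum_univ_four, Pi.add_apply, Pi.zero_apply] at this
    simp only [toR, Pi.neg_apply, Pi.add_apply]
    have h2 : f 3 j = -(f 0 j + f 1 j + f 2 j) := by omega
    rw [h2]; push_cast; ring
  conv_rhs => rw [← hv]
  rw [Fin.sum_univ_four, hf3]
  funext j
  simp only [Matrix.mulVec, dotProduct, Fin.sum_univ_three, P, Q, toR, Pi.add_apply, Pi.smul_apply,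
    Pi.neg_apply, smul_eq_mul]
  have c0 : (Fin.castSucc (0 : Fin 3)) = (0 : Fin 4) := rfl
  have c1 : (Fin.castSucc (1 : Fin 3)) = (1 : Fin 4) := rfl
  have c2 : (Fin.castSucc (2 : Fin 3)) = (2 : Fin 4) := rfl
  rw [c0, c1, c2]
  push_cast
  ring

/-- the bilinear form in the lattice coordinates -/
lemma form_eq (G : Matrix (Fin 3) (Fin 3) ℝ) (f g : Fin 4 → Fin 3 → ℤ) (h : Superb f g)
    (u v : Fin 3 → ℝ) :
    u ⬝ᵥ G *ᵥ v =
      ∑ i, ∑ j, (toR (g i) ⬝ᵥ u) * (toR (g j) ⬝ᵥ v) * (toR (f i) ⬝ᵥ G *ᵥ toR (f j)) := by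
  conv_lhs => rw [← repr_vec f g h u, ← repr_vec f g h v]
  rw [sum_dotProduct]
  refine Finset.sum_congr rfl fun i _ => ?_
  rw [Matrix.mulVec_sum, dotProduct_sum]
  refine Finset.sum_congr rfl fun j _ => ?_
  rw [Matrix.mulVec_smul, smul_dotProduct, dotProduct_smul, smul_eq_mul, smul_eq_mul]
  ring

lemma row_zero (G : Matrix (Fin 3) (Fin 3) ℝ) (f g : Fin 4 → Fin 3 → ℤ) (h : Superb f g) (i : Fin 4) :
    ∑ j, toR (f i) ⬝ᵥ G *ᵥ toR (f j) = 0 := by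
  have : ∑ j, toR (f j) = 0 := by
    funext k
    have := congrFun h.1 k
    simp only [Finset.sum_apply, Pi.zero_apply, toR] at this ⊢
    exact_mod_cast this
  rw [← dotProduct_sum, ← Matrix.mulVec_sum, this]
  simp

lemma symm_form (G : Matrix (Fin 3) (Fin 3) ℝ) (hG : G.PosDef) (u v : Fin 3 → ℝ) :
    u ⬝ᵥ G *ᵥ v = v ⬝ᵥ G *ᵥ u := by
  have ht : Gᵀ = G := by
    have := hG.1.eq
    simpa using this
  rw [dotProduct_mulVec, ← mulVec_transpose, ht, dotProduct_comm]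

lemma superb_perm (f g : Fin 4 → Fin 3 → ℤ) (h : Superb f g) (σ : Equiv.Perm (Fin 4)) :
    Superb (f ∘ σ) (g ∘ σ) := by
  refine ⟨?_, fun i j l => ?_⟩
  · have := h.1
    rw [← this]
    exact Equiv.sum_comp σ f
  · have := h.2 (σ i) (σ j) (σ l)
    simpa [σ.injective.eq_iff] using this

/-- Foster's identity for the potentials of a superbase. -/
lemma foster (G M : Matrix (Fin 3) (Fin 3) ℝ) (hG : G.PosDef) (hGM : G * M = 1)
    (f g : Fin 4 → Fin 3 → ℤ) (h : Superb f g) (b : Fin 4 → Fin 4 → ℝ)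
    (hb : ∀ i j, b i j = toR (f i) ⬝ᵥ G *ᵥ toR (f j)) (r : Fin 4 → Fin 4 → ℝ)
    (hr : ∀ i j, r i j = (toR (g i) - toR (g j)) ⬝ᵥ M *ᵥ (toR (g i) - toR (g j))) :
    b 0 1 * r 0 1 + b 0 2 * r 0 2 + b 0 3 * r 0 3 + b 1 2 * r 1 2 + b 1 3 * r 1 3
      + b 2 3 * r 2 3 = -3 := by
  have hs : ∀ i j, b i j = b j i := fun i j => by rw [hb, hb, symm_form G hG]
  have h0 : ∀ i, ∑ j, b i j = 0 := fun i => by
    simp only [hb]; exact row_zero G f g h i
  -- the entries of `G`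
  have hent : ∀ p q : Fin 3, G p q =
      -(b 0 1 * ((toR (g 0) p - toR (g 1) p) * (toR (g 0) q - toR (g 1) q))
        + b 0 2 * ((toR (g 0) p - toR (g 2) p) * (toR (g 0) q - toR (g 2) q))
        + b 0 3 * ((toR (g 0) p - toR (g 3) p) * (toR (g 0) q - toR (g 3) q))
        + b 1 2 * ((toR (g 1) p - toR (g 2) p) * (toR (g 1) q - toR (g 2) q))
        + b 1 3 * ((toR (g 1) p - toR (g 3) p) * (toR (g 1) q - toR (g 3) q))
        + b 2 3 * ((toR (g 2) p - toR (g 3) p) * (toR (g 2) q - toR (g 3) q))) := by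
    intro p q
    rw [← alg_form b hs h0 (fun i => toR (g i) p) (fun i => toR (g i) q)]
    have h1 := form_eq G f g h (Pi.single p 1) (Pi.single q 1)
    have h2 : (Pi.single p (1 : ℝ)) ⬝ᵥ G *ᵥ (Pi.single q 1) = G p q := by
      rw [single_dotProduct, Matrix.mulVec_single_one]
      simp
    rw [h2] at h1
    rw [h1]
    refine Finset.sum_congr rfl fun i _ => Finset.sum_congr rfl fun j _ => ?_
    rw [hb, dotProduct_single, dotProduct_single, mul_one, mul_one]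
  have htr : ∑ p, ∑ q, G p q * M q p = 3 := by
    have : (G * M).trace = 3 := by rw [hGM]; simp
    rw [← this]
    simp [Matrix.trace, Matrix.mul_apply]
  have hsy : ∀ p q, G p q = G q p := by
    intro p q
    have := hG.1.apply p q
    simpa using this.symm
  have hr' : ∀ i j, r i j = ∑ p, ∑ q, (toR (g i) p - toR (g j) p) * (toR (g i) q - toR (g j) q) * M q p := by
    intro i j
    rw [hr]
    simp only [dotProduct, Matrix.mulVec, Fin.sum_univ_three, Pi.sub_apply]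
    ring
  simp only [Fin.sum_univ_three] at htr
  rw [hr' 0 1, hr' 0 2, hr' 0 3, hr' 1 2, hr' 1 3, hr' 2 3]
  simp only [Fin.sum_univ_three]
  have key := htr
  rw [hent 0 0, hent 0 1, hent 0 2, hent 1 0, hent 1 1, hent 1 2, hent 2 0, hent 2 1, hent 2 2] at key
  linear_combination -key

/-- The covering step with sorted coordinates. -/
lemma cover_sorted (G : Matrix (Fin 3) (Fin 3) ℝ) (hG : G.PosDef)
    (f g : Fin 4 → Fin 3 → ℤ) (h : Superb f g)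
    (hob : ∀ i j, i ≠ j → toR (f i) ⬝ᵥ G *ᵥ toR (f j) ≤ 0) (c : Fin 3 → ℝ)
    (hc : ∀ z : Fin 3 → ℤ, 1 ≤ (toR z - c) ⬝ᵥ G *ᵥ (toR z - c))
    (h01 : Int.fract (toR (g 1) ⬝ᵥ c) ≤ Int.fract (toR (g 0) ⬝ᵥ c))
    (h12 : Int.fract (toR (g 2) ⬝ᵥ c) ≤ Int.fract (toR (g 1) ⬝ᵥ c))
    (h23 : Int.fract (toR (g 3) ⬝ᵥ c) ≤ Int.fract (toR (g 2) ⬝ᵥ c)) :
    8 ≤ ∑ i, toR (f i) ⬝ᵥ G *ᵥ toR (f i) := by
  obtain ⟨b, hb⟩ : ∃ b : Fin 4 → Fin 4 → ℝ, ∀ i j, b i j = toR (f i) ⬝ᵥ G *ᵥ toR (f j) :=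
    ⟨fun i j => toR (f i) ⬝ᵥ G *ᵥ toR (f j), fun i j => rfl⟩
  have hs : ∀ i j, b i j = b j i := fun i j => by rw [hb, hb, symm_form G hG]
  have h0 : ∀ i, ∑ j, b i j = 0 := fun i => by
    simp only [hb]; exact row_zero G f g h i
  obtain ⟨x, hx⟩ : ∃ x : Fin 4 → ℝ, ∀ i, x i = toR (g i) ⬝ᵥ c := ⟨_, fun i => rfl⟩
  obtain ⟨θ, hθ⟩ : ∃ θ : Fin 4 → ℝ, ∀ i, θ i = Int.fract (x i) := ⟨_, fun i => rfl⟩
  -- distance of the lattice point with coordinates `floor + e`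
  have hdist : ∀ e : Fin 4 → ℤ, 1 ≤
      -(b 0 1 * (((e 0 - θ 0) - (e 1 - θ 1)) * ((e 0 - θ 0) - (e 1 - θ 1)))
        + b 0 2 * (((e 0 - θ 0) - (e 2 - θ 2)) * ((e 0 - θ 0) - (e 2 - θ 2)))
        + b 0 3 * (((e 0 - θ 0) - (e 3 - θ 3)) * ((e 0 - θ 0) - (e 3 - θ 3)))
        + b 1 2 * (((e 1 - θ 1) - (e 2 - θ 2)) * ((e 1 - θ 1) - (e 2 - θ 2)))
        + b 1 3 * (((e 1 - θ 1) - (e 3 - θ 3)) * ((e 1 - θ 1) - (e 3 - θ 3)))
        + b 2 3 * (((e 2 - θ 2) - (e 3 - θ 3)) * ((e 2 - θ 2) - (e 3 - θ 3)))) := by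
    intro e
    rw [← alg_form b hs h0 (fun i => e i - θ i) (fun i => e i - θ i)]
    have hz := hc (∑ l, (⌊x l⌋ + e l) • f l)
    have hvec : toR (∑ l, (⌊x l⌋ + e l) • f l) - c = ∑ l, ((e l : ℝ) - θ l) • toR (f l) := by
      conv_lhs => rw [← repr_vec f g h c]
      funext k
      simp only [toR, Pi.sub_apply, Finset.sum_apply, Pi.smul_apply, smul_eq_mul]
      push_cast
      rw [← Finset.sum_sub_distrib]
      refine Finset.sum_congr rfl fun l _ => ?_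
      rw [hθ l, Int.fract, hx l]
      ring
    rw [hvec] at hz
    have e1 : (∑ l, ((e l : ℝ) - θ l) • toR (f l)) ⬝ᵥ G *ᵥ (∑ l, ((e l : ℝ) - θ l) • toR (f l))
        = ∑ i, ∑ j, (e i - θ i) * (e j - θ j) * b i j := by
      rw [sum_dotProduct]
      refine Finset.sum_congr rfl fun i _ => ?_
      rw [Matrix.mulVec_sum, dotProduct_sum]
      refine Finset.sum_congr rfl fun j _ => ?_
      rw [Matrix.mulVec_smul, smul_dotProduct, dotProduct_smul, smul_eq_mul, smul_eq_mul, hb]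
      ring
    rw [e1] at hz
    exact hz
  have d0 := hdist ![0, 0, 0, 0]
  have d1 := hdist ![1, 0, 0, 0]
  have d2 := hdist ![1, 1, 0, 0]
  have d3 := hdist ![1, 1, 1, 0]
  simp only [Matrix.cons_val_zero, Matrix.cons_val_one, Matrix.cons_val, Int.cast_zero, Int.cast_one] at d0 d1 d2 d3
  have t0 : θ 1 ≤ θ 0 := by rw [hθ, hθ, hx, hx]; exact h01
  have t1 : θ 2 ≤ θ 1 := by rw [hθ, hθ, hx, hx]; exact h12
  have t2 : θ 3 ≤ θ 2 := by rw [hθ, hθ, hx, hx]; exact h23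
  have t3 : θ 0 < 1 := by rw [hθ]; exact Int.fract_lt_one _
  have t4 : 0 ≤ θ 3 := by rw [hθ]; exact Int.fract_nonneg _
  -- the weighted sum of the four distances
  have key : 1 ≤ -(b 0 1 * ((θ 0 - θ 1) * (1 - (θ 0 - θ 1))) + b 0 2 * ((θ 0 - θ 2) * (1 - (θ 0 - θ 2)))
      + b 0 3 * ((θ 0 - θ 3) * (1 - (θ 0 - θ 3))) + b 1 2 * ((θ 1 - θ 2) * (1 - (θ 1 - θ 2)))
      + b 1 3 * ((θ 1 - θ 3) * (1 - (θ 1 - θ 3))) + b 2 3 * ((θ 2 - θ 3) * (1 - (θ 2 - θ 3)))) := by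
    have w0 := mul_le_mul_of_nonneg_left d0 (show (0:ℝ) ≤ 1 - θ 0 + θ 3 by linarith)
    have w1 := mul_le_mul_of_nonneg_left d1 (show (0:ℝ) ≤ θ 0 - θ 1 by linarith)
    have w2 := mul_le_mul_of_nonneg_left d2 (show (0:ℝ) ≤ θ 1 - θ 2 by linarith)
    have w3 := mul_le_mul_of_nonneg_left d3 (show (0:ℝ) ≤ θ 2 - θ 3 by linarith)
    linear_combination w0 + w1 + w2 + w3
  have hob' : ∀ i j, i ≠ j → b i j ≤ 0 := fun i j hij => by rw [hb]; exact hob i j hij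
  have q : ∀ s : ℝ, s * (1 - s) ≤ 1 / 4 := fun s => by nlinarith [sq_nonneg (s - 1/2)]
  have m01 := mul_le_mul_of_nonpos_left (q (θ 0 - θ 1)) (hob' 0 1 (by decide))
  have m02 := mul_le_mul_of_nonpos_left (q (θ 0 - θ 2)) (hob' 0 2 (by decide))
  have m03 := mul_le_mul_of_nonpos_left (q (θ 0 - θ 3)) (hob' 0 3 (by decide))
  have m12 := mul_le_mul_of_nonpos_left (q (θ 1 - θ 2)) (hob' 1 2 (by decide))
  have m13 := mul_le_mul_of_nonpos_left (q (θ 1 - θ 3)) (hob' 1 3 (by decide))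
  have m23 := mul_le_mul_of_nonpos_left (q (θ 2 - θ 3)) (hob' 2 3 (by decide))
  have e0 := h0 0
  have e1 := h0 1
  have e2 := h0 2
  have e3 := h0 3
  simp only [Fin.sum_univ_four] at e0 e1 e2 e3
  rw [hs 1 0] at e1
  rw [hs 2 0, hs 2 1] at e2
  rw [hs 3 0, hs 3 1, hs 3 2] at e3
  have hsum : ∑ i, toR (f i) ⬝ᵥ G *ᵥ toR (f i) = b 0 0 + b 1 1 + b 2 2 + b 3 3 := by
    rw [Fin.sum_univ_four, hb, hb, hb, hb]
  rw [hsum]
  linarith

/-- The covering step. -/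
lemma cover (G : Matrix (Fin 3) (Fin 3) ℝ) (hG : G.PosDef)
    (f g : Fin 4 → Fin 3 → ℤ) (h : Superb f g)
    (hob : ∀ i j, i ≠ j → toR (f i) ⬝ᵥ G *ᵥ toR (f j) ≤ 0) (c : Fin 3 → ℝ)
    (hc : ∀ z : Fin 3 → ℤ, 1 ≤ (toR z - c) ⬝ᵥ G *ᵥ (toR z - c)) :
    8 ≤ ∑ i, toR (f i) ⬝ᵥ G *ᵥ toR (f i) := by
  let θ : Fin 4 → ℝ := fun i => - Int.fract (toR (g i) ⬝ᵥ c)
  have hmono : Monotone (θ ∘ Tuple.sort θ) := Tuple.monotone_sort θ
  have := cover_sorted G hG (f ∘ Tuple.sort θ) (g ∘ Tuple.sort θ) (superb_perm f g h _)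
    (fun i j hij => hob _ _ (fun e => hij ((Tuple.sort θ).injective e))) c hc
    (by have := hmono (show (0 : Fin 4) ≤ 1 by decide); simp only [θ, Function.comp] at this ⊢; linarith)
    (by have := hmono (show (1 : Fin 4) ≤ 2 by decide); simp only [θ, Function.comp] at this ⊢; linarith)
    (by have := hmono (show (2 : Fin 4) ≤ 3 by decide); simp only [θ, Function.comp] at this ⊢; linarith)
  rw [← Equiv.sum_comp (Tuple.sort θ) (fun i => toR (f i) ⬝ᵥ G *ᵥ toR (f i))]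
  exact this

lemma pot_ne (f g : Fin 4 → Fin 3 → ℤ) (h : Superb f g) (i j : Fin 4) (hij : i ≠ j) : g i - g j ≠ 0 := by
  intro e
  have := h.2 i j i
  rw [e, if_pos rfl, if_neg (Ne.symm hij)] at this
  simp at this

/-- If all lattice points have distance at least one from `c` in the form `G = M⁻¹`, then some nonzero dual vector has
squared length at most `3/4`. -/
theorem core (G M : Matrix (Fin 3) (Fin 3) ℝ) (hG : G.PosDef) (hGM : G * M = 1) (c : Fin 3 → ℝ)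
    (h : ∀ z : Fin 3 → ℤ, 1 ≤ (toR z - c) ⬝ᵥ G *ᵥ (toR z - c)) :
    ∃ u : Fin 3 → ℤ, u ≠ 0 ∧ toR u ⬝ᵥ M *ᵥ toR u ≤ 3 / 4 := by
  obtain ⟨f, g, hfg, hob⟩ := selling G hG
  have h8 := cover G hG f g hfg hob c h
  by_contra hcon
  push Not at hcon
  obtain ⟨b, hb⟩ : ∃ b : Fin 4 → Fin 4 → ℝ, ∀ i j, b i j = toR (f i) ⬝ᵥ G *ᵥ toR (f j) :=
    ⟨fun i j => toR (f i) ⬝ᵥ G *ᵥ toR (f j), fun i j => rfl⟩
  have hs : ∀ i j, b i j = b j i := fun i j => by rw [hb, hb, symm_form G hG]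
  have h0 : ∀ i, ∑ j, b i j = 0 := fun i => by
    simp only [hb]; exact row_zero G f g hfg i
  obtain ⟨r, hr⟩ : ∃ r : Fin 4 → Fin 4 → ℝ, ∀ i j, r i j = (toR (g i) - toR (g j)) ⬝ᵥ M *ᵥ (toR (g i) - toR (g j)) :=
    ⟨_, fun i j => rfl⟩
  have hF := foster G M hG hGM f g hfg b hb r hr
  have hr1 : ∀ i j, i ≠ j → 3 / 4 < r i j := by
    intro i j hij
    have := hcon (g i - g j) (pot_ne f g hfg i j hij)
    rw [hr]
    have e : toR (g i - g j) = toR (g i) - toR (g j) := by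
      funext k; simp [toR]
    rwa [e] at this
  have hob' : ∀ i j, i ≠ j → b i j ≤ 0 := fun i j hij => by rw [hb]; exact hob i j hij
  have hsum : ∑ i, toR (f i) ⬝ᵥ G *ᵥ toR (f i) = b 0 0 + b 1 1 + b 2 2 + b 3 3 := by
    rw [Fin.sum_univ_four, hb, hb, hb, hb]
  rw [hsum] at h8
  have e0 := h0 0
  have e1 := h0 1
  have e2 := h0 2
  have e3 := h0 3
  simp only [Fin.sum_univ_four] at e0 e1 e2 e3
  rw [hs 1 0] at e1
  rw [hs 2 0, hs 2 1] at e2
  rw [hs 3 0, hs 3 1, hs 3 2] at e3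
  -- some `b i j` is negative
  have n01 := hob' 0 1 (by decide)
  have n02 := hob' 0 2 (by decide)
  have n03 := hob' 0 3 (by decide)
  have n12 := hob' 1 2 (by decide)
  have n13 := hob' 1 3 (by decide)
  have n23 := hob' 2 3 (by decide)
  obtain ⟨ε, hε, hmin⟩ : ∃ ε : ℝ, 0 < ε ∧ (3/4 + ε ≤ r 0 1 ∧ 3/4 + ε ≤ r 0 2 ∧ 3/4 + ε ≤ r 0 3 ∧
      3/4 + ε ≤ r 1 2 ∧ 3/4 + ε ≤ r 1 3 ∧ 3/4 + ε ≤ r 2 3) := by
    refine ⟨min (min (min (r 0 1) (r 0 2)) (min (r 0 3) (r 1 2))) (min (r 1 3) (r 2 3)) - 3/4, ?_, ?_⟩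
    · have := hr1 0 1 (by decide)
      have := hr1 0 2 (by decide)
      have := hr1 0 3 (by decide)
      have := hr1 1 2 (by decide)
      have := hr1 1 3 (by decide)
      have := hr1 2 3 (by decide)
      have : 3/4 < min (min (min (r 0 1) (r 0 2)) (min (r 0 3) (r 1 2))) (min (r 1 3) (r 2 3)) := by
        simp only [lt_min_iff]
        refine ⟨⟨⟨?_, ?_⟩, ?_, ?_⟩, ?_, ?_⟩ <;> assumption
      linarith
    · refine ⟨?_, ?_, ?_, ?_, ?_, ?_⟩ <;> simp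
  obtain ⟨a1, a2, a3, a4, a5, a6⟩ := hmin
  nlinarith [mul_le_mul_of_nonpos_left a1 n01, mul_le_mul_of_nonpos_left a2 n02,
    mul_le_mul_of_nonpos_left a3 n03, mul_le_mul_of_nonpos_left a4 n12,
    mul_le_mul_of_nonpos_left a5 n13, mul_le_mul_of_nonpos_left a6 n23]

end Pool.Agent.Helper22.Sym
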