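import Mathlib
import Pool.Agent.Helper15.SF.Sharp

/-! S5 / (S): the octahedron `∑ |x i - 1/2| ≤ 3/2`. -/

set_option autoImplicit false

namespace Pool.Agent.Helper22.Sym

/-- The octahedron `∑ |x i - 1/2| ≤ 3/2` is centrally symmetric, lattice-free and has lattice width three. -/
theorem sharp : ∃ (K : Set (Fin 3 → ℝ)) (c : Fin 3 → ℝ), IsCompact K ∧ Convex ℝ K ∧
    (interior K).Nonempty ∧ (∀ z : Fin 3 → ℤ, (fun i => (z i : ℝ)) ∉ interior K) ∧
    (∀ x ∈ K, c - (x - c) ∈ K) ∧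
    ∀ y : Fin 3 → ℤ, y ≠ 0 → ∃ x ∈ K, ∃ x' ∈ K,
      3 ≤ ∑ i, (x i - x' i) * (y i : ℝ) := by
  refine ⟨Pool.Agent.Helper15.SF.oct, fun _ => 1 / 2, Pool.Agent.Helper15.SF.oct_compact,
    Pool.Agent.Helper15.SF.oct_convex, Pool.Agent.Helper15.SF.oct_interior,
    Pool.Agent.Helper15.SF.oct_free, ?_, Pool.Agent.Helper15.SF.oct_width⟩
  intro x hx
  have h := Pool.Agent.Helper15.SF.oct_symm x hx
  have e : (fun _ : Fin 3 => (1 / 2 : ℝ)) - (x - fun _ => 1 / 2) = fun i => 1 - x i := by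
    funext i
    simp only [Pi.sub_apply]
    ring
  rw [e]
  exact h

end Pool.Agent.Helper22.Sym
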