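import Mathlib
import Pool.Agent.Helper22.Sym.Core
import Pool.Agent.Helper22.Sym.Sharp
import Pool.Agent.Helper91.SF.John

/-! S5 / (S): the ellipsoid criterion and the flatness theorem for bodies of bounded asymmetry. -/

set_option autoImplicit false

namespace Pool.Agent.Helper22.Sym

open Matrix

/-- Foster's identity with a second form `N`. -/
lemma foster' (G N : Matrix (Fin 3) (Fin 3) ℝ) (hG : G.PosDef)
    (f g : Fin 4 → Fin 3 → ℤ) (h : Superb f g) (b : Fin 4 → Fin 4 → ℝ)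
    (hb : ∀ i j, b i j = toR (f i) ⬝ᵥ G *ᵥ toR (f j)) (r : Fin 4 → Fin 4 → ℝ)
    (hr : ∀ i j, r i j = (toR (g i) - toR (g j)) ⬝ᵥ N *ᵥ (toR (g i) - toR (g j))) :
    b 0 1 * r 0 1 + b 0 2 * r 0 2 + b 0 3 * r 0 3 + b 1 2 * r 1 2 + b 1 3 * r 1 3
      + b 2 3 * r 2 3 = -(G * N).trace := by
  have hs : ∀ i j, b i j = b j i := fun i j => by rw [hb, hb, symm_form G hG]
  have h0 : ∀ i, ∑ j, b i j = 0 := fun i => by
    simp only [hb]; exact row_zero G f g h i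
  -- the entries of `G`
  have hent : ∀ p q : Fin 3, G p q =
      -(b 0 1 * ((toR (g 0) p - toR (g 1) p) * (toR (g 0) q - toR (g 1) q))
        + b 0 2 * ((toR (g 0) p - toR (g 2) p) * (toR (g 0) q - toR (g 2) q))
        + b 0 3 * ((toR (g 0) p - toR (g 3) p) * (toR (g 0) q - toR (g 3) q))
        + b 1 2 * ((toR (g 1) p - toR (g 2) p) * (toR (g 1) q - toR (g 2) q))
        + b 1 3 * ((toR (g 1) p - toR (g 3) p) * (toR (g 1) q - toR (g 3) q))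
        + b 2 3 * ((toR (g 2) p - toR (g 3) p) * (toR (g 2) q - toR (g 3) q))) := by
    intro p q
    rw [← alg_form b hs h0 (fun i => toR (g i) p) (fun i => toR (g i) q)]
    have h1 := form_eq G f g h (Pi.single p 1) (Pi.single q 1)
    have h2 : (Pi.single p (1 : ℝ)) ⬝ᵥ G *ᵥ (Pi.single q 1) = G p q := by
      rw [single_dotProduct, Matrix.mulVec_single_one]
      simp
    rw [h2] at h1
    rw [h1]
    refine Finset.sum_congr rfl fun i _ => Finset.sum_congr rfl fun j _ => ?_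
    rw [hb, dotProduct_single, dotProduct_single, mul_one, mul_one]
  have htr : ∑ p, ∑ q, G p q * N q p = (G * N).trace := by
    simp [Matrix.trace, Matrix.mul_apply]
  have hr' : ∀ i j, r i j = ∑ p, ∑ q, (toR (g i) p - toR (g j) p) * (toR (g i) q - toR (g j) q) * N q p := by
    intro i j
    rw [hr]
    simp only [dotProduct, Matrix.mulVec, Fin.sum_univ_three, Pi.sub_apply]
    ring
  rw [← htr]
  simp only [Fin.sum_univ_three]
  rw [hr' 0 1, hr' 0 2, hr' 0 3, hr' 1 2, hr' 1 3, hr' 2 3]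
  simp only [Fin.sum_univ_three]
  rw [hent 0 0, hent 0 1, hent 0 2, hent 1 0, hent 1 1, hent 1 2, hent 2 0, hent 2 1, hent 2 2]
  ring

/-- If all lattice points have distance at least one from `c` in the form `G`, then for every positive
semidefinite form `N` some nonzero integer vector `u` has `u·N u ≤ tr (G N) / 4`. -/
theorem core' (G N : Matrix (Fin 3) (Fin 3) ℝ) (hG : G.PosDef)
    (hN : ∀ y : Fin 3 → ℝ, 0 ≤ y ⬝ᵥ N *ᵥ y) (c : Fin 3 → ℝ)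
    (h : ∀ z : Fin 3 → ℤ, 1 ≤ (toR z - c) ⬝ᵥ G *ᵥ (toR z - c)) :
    ∃ u : Fin 3 → ℤ, u ≠ 0 ∧ toR u ⬝ᵥ N *ᵥ toR u ≤ (G * N).trace / 4 := by
  obtain ⟨f, g, hfg, hob⟩ := selling G hG
  have h8 := cover G hG f g hfg hob c h
  by_contra hcon
  push Not at hcon
  obtain ⟨b, hb⟩ : ∃ b : Fin 4 → Fin 4 → ℝ, ∀ i j, b i j = toR (f i) ⬝ᵥ G *ᵥ toR (f j) :=
    ⟨fun i j => toR (f i) ⬝ᵥ G *ᵥ toR (f j), fun i j => rfl⟩
  have hs : ∀ i j, b i j = b j i := fun i j => by rw [hb, hb, symm_form G hG]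
  have h0 : ∀ i, ∑ j, b i j = 0 := fun i => by
    simp only [hb]; exact row_zero G f g hfg i
  obtain ⟨r, hr⟩ : ∃ r : Fin 4 → Fin 4 → ℝ, ∀ i j, r i j = (toR (g i) - toR (g j)) ⬝ᵥ N *ᵥ (toR (g i) - toR (g j)) :=
    ⟨_, fun i j => rfl⟩
  have hF := foster' G N hG f g hfg b hb r hr
  set t := (G * N).trace with ht
  have hr1 : ∀ i j, i ≠ j → t / 4 < r i j := by
    intro i j hij
    have := hcon (g i - g j) (pot_ne f g hfg i j hij)
    rw [hr]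
    have e : toR (g i - g j) = toR (g i) - toR (g j) := by
      funext k; simp [toR]
    rwa [e] at this
  have hr0 : ∀ i j, 0 ≤ r i j := fun i j => by rw [hr]; exact hN _
  have hob' : ∀ i j, i ≠ j → b i j ≤ 0 := fun i j hij => by rw [hb]; exact hob i j hij
  have hsum : ∑ i, toR (f i) ⬝ᵥ G *ᵥ toR (f i) = b 0 0 + b 1 1 + b 2 2 + b 3 3 := by
    rw [Fin.sum_univ_four, hb, hb, hb, hb]
  rw [hsum] at h8
  have e0 := h0 0
  have e1 := h0 1
  have e2 := h0 2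
  have e3 := h0 3
  simp only [Fin.sum_univ_four] at e0 e1 e2 e3
  rw [hs 1 0] at e1
  rw [hs 2 0, hs 2 1] at e2
  rw [hs 3 0, hs 3 1, hs 3 2] at e3
  have n01 := hob' 0 1 (by decide)
  have n02 := hob' 0 2 (by decide)
  have n03 := hob' 0 3 (by decide)
  have n12 := hob' 1 2 (by decide)
  have n13 := hob' 1 3 (by decide)
  have n23 := hob' 2 3 (by decide)
  obtain ⟨m, hm0, hm1, a1, a2, a3, a4, a5, a6⟩ : ∃ m : ℝ, 0 ≤ m ∧ t / 4 < m ∧ m ≤ r 0 1 ∧ m ≤ r 0 2 ∧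
      m ≤ r 0 3 ∧ m ≤ r 1 2 ∧ m ≤ r 1 3 ∧ m ≤ r 2 3 := by
    refine ⟨min (min (min (r 0 1) (r 0 2)) (min (r 0 3) (r 1 2))) (min (r 1 3) (r 2 3)), ?_, ?_, ?_⟩
    · have := hr0 0 1
      have := hr0 0 2
      have := hr0 0 3
      have := hr0 1 2
      have := hr0 1 3
      have := hr0 2 3
      simp only [le_min_iff]
      refine ⟨⟨⟨?_, ?_⟩, ?_, ?_⟩, ?_, ?_⟩ <;> assumption
    · have := hr1 0 1 (by decide)
      have := hr1 0 2 (by decide)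
      have := hr1 0 3 (by decide)
      have := hr1 1 2 (by decide)
      have := hr1 1 3 (by decide)
      have := hr1 2 3 (by decide)
      simp only [lt_min_iff]
      refine ⟨⟨⟨?_, ?_⟩, ?_, ?_⟩, ?_, ?_⟩ <;> assumption
    · refine ⟨?_, ?_, ?_, ?_, ?_, ?_⟩ <;> simp
  have hP : b 0 1 + b 0 2 + b 0 3 + b 1 2 + b 1 3 + b 2 3 ≤ -4 := by linarith
  have hPm := mul_le_mul_of_nonneg_left hP hm0
  have b1 := mul_le_mul_of_nonpos_left a1 n01
  have b2 := mul_le_mul_of_nonpos_left a2 n02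
  have b3 := mul_le_mul_of_nonpos_left a3 n03
  have b4 := mul_le_mul_of_nonpos_left a4 n12
  have b5 := mul_le_mul_of_nonpos_left a5 n13
  have b6 := mul_le_mul_of_nonpos_left a6 n23
  linarith

/-- **The ellipsoid criterion.** If `K` contains the ellipsoid `{x : (x - c)·G (x - c) ≤ 1}` and no lattice
point in its interior, and `(y·(x - x'))² ≤ y·N y` for all `x, x' ∈ K` and all `y`, then the squared lattice width
of `K` is at most `tr (G N) / 4`. -/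
theorem criterion (K : Set (Fin 3 → ℝ)) (G N : Matrix (Fin 3) (Fin 3) ℝ) (hG : G.PosDef) (c : Fin 3 → ℝ)
    (hE : ∀ x, (x - c) ⬝ᵥ G *ᵥ (x - c) ≤ 1 → x ∈ K)
    (hN : ∀ x ∈ K, ∀ x' ∈ K, ∀ y : Fin 3 → ℝ, (y ⬝ᵥ (x - x')) ^ 2 ≤ y ⬝ᵥ N *ᵥ y)
    (hfree : ∀ z : Fin 3 → ℤ, (fun i => (z i : ℝ)) ∉ interior K) :
    ∃ u : Fin 3 → ℤ, u ≠ 0 ∧ ∀ x ∈ K, ∀ x' ∈ K,
      (∑ i, (x i - x' i) * (u i : ℝ)) ^ 2 ≤ (G * N).trace / 4 := by
  have hcK : c ∈ K := hE c (by simp)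
  have hN0 : ∀ y : Fin 3 → ℝ, 0 ≤ y ⬝ᵥ N *ᵥ y := fun y =>
    le_trans (sq_nonneg _) (hN c hcK c hcK y)
  have hdist : ∀ z : Fin 3 → ℤ, 1 ≤ (toR z - c) ⬝ᵥ G *ᵥ (toR z - c) := by
    intro z
    by_contra hlt
    push Not at hlt
    apply hfree z
    rw [mem_interior]
    refine ⟨{x | (x - c) ⬝ᵥ G *ᵥ (x - c) < 1}, fun x hx => hE x (le_of_lt hx), ?_, hlt⟩
    apply isOpen_lt ?_ continuous_const
    simp only [dotProduct, Matrix.mulVec, Fin.sum_univ_three, Pi.sub_apply]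
    fun_prop
  obtain ⟨u, hu0, hu⟩ := core' G N hG hN0 c hdist
  refine ⟨u, hu0, fun x hx x' hx' => ?_⟩
  have h1 := hN x hx x' hx' (toR u)
  have e : toR u ⬝ᵥ (x - x') = ∑ i, (x i - x' i) * (u i : ℝ) := by
    simp only [dotProduct, toR, Pi.sub_apply]
    exact Finset.sum_congr rfl fun i _ => by ring
  rw [e] at h1
  exact h1.trans hu

/-- **Bodies of asymmetry at most `s`.** -/
theorem asym (K : Set (Fin 3 → ℝ)) (hK : IsCompact K) (hcv : Convex ℝ K) (hint : (interior K).Nonempty)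
    (hfree : ∀ z : Fin 3 → ℤ, (fun i => (z i : ℝ)) ∉ interior K)
    (c : Fin 3 → ℝ) (s : ℝ) (hs : 0 < s) (hsym : ∀ x ∈ K, c - (1 / s) • (x - c) ∈ K) :
    ∃ u : Fin 3 → ℤ, u ≠ 0 ∧ ∀ x ∈ K, ∀ x' ∈ K,
      ∑ i, (x i - x' i) * (u i : ℝ) ≤ 3 * (1 + s) / 2 := by
  have h1s : 0 < 1 + s := by linarith
  -- the symmetric body
  let φ : (Fin 3 → ℝ) × (Fin 3 → ℝ) → (Fin 3 → ℝ) := fun p => (1 / (1 + s)) • (p.1 - p.2)
  have hφ : Continuous φ := by fun_prop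
  set C : Set (Fin 3 → ℝ) := φ '' (K ×ˢ K) with hCdef
  have hCc : IsCompact C := (hK.prod hK).image hφ
  have hCv : Convex ℝ C := by
    rintro _ ⟨⟨x, x'⟩, ⟨hx, hx'⟩, rfl⟩ _ ⟨⟨y, y'⟩, ⟨hy, hy'⟩, rfl⟩ a b ha hb hab
    refine ⟨(a • x + b • y, a • x' + b • y'), ⟨hcv hx hy ha hb hab, hcv hx' hy' ha hb hab⟩, ?_⟩
    funext i
    simp only [φ, Pi.smul_apply, Pi.sub_apply, Pi.add_apply, smul_eq_mul]
    ring
  have hCs : ∀ x ∈ C, -x ∈ C := by
    rintro _ ⟨⟨x, x'⟩, ⟨hx, hx'⟩, rfl⟩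
    refine ⟨(x', x), ⟨hx', hx⟩, ?_⟩
    funext i
    simp only [φ, Pi.smul_apply, Pi.sub_apply, Pi.neg_apply, smul_eq_mul]
    ring
  have hCi : (interior C).Nonempty := by
    obtain ⟨x0, hx0⟩ := hint
    refine ⟨0, ?_⟩
    rw [mem_interior]
    refine ⟨(fun v => x0 + (1 + s) • v) ⁻¹' interior K, ?_, ?_, ?_⟩
    · intro v hv
      refine ⟨(x0 + (1 + s) • v, x0), ⟨interior_subset hv, interior_subset hx0⟩, ?_⟩
      funext i
      simp only [φ, Pi.smul_apply, Pi.sub_apply, Pi.add_apply, smul_eq_mul]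
      field_simp
      ring
    · exact isOpen_interior.preimage (by fun_prop)
    · simpa using hx0
  -- `c + C ⊆ K`
  have hcC : ∀ v ∈ C, c + v ∈ K := by
    rintro _ ⟨⟨x, x'⟩, ⟨hx, hx'⟩, rfl⟩
    have h1 := hsym x' hx'
    have h2 := hcv hx h1 (show (0 : ℝ) ≤ 1 / (1 + s) by positivity) (show (0 : ℝ) ≤ s / (1 + s) by positivity)
      (by field_simp)
    convert h2 using 1
    funext i
    simp only [φ, Pi.smul_apply, Pi.sub_apply, Pi.add_apply, smul_eq_mul]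
    field_simp
    ring
  obtain ⟨M, hdet, hball, hout⟩ := Helper91.SF.john_symm C hCv hCc hCs hCi
  have hunit : IsUnit M.det := isUnit_iff_ne_zero.mpr hdet
  have hM1 : M⁻¹ * M = 1 := Matrix.nonsing_inv_mul M hunit
  have hM2 : M * M⁻¹ = 1 := Matrix.mul_nonsing_inv M hunit
  -- the forms
  have hsq : ∀ v : Fin 3 → ℝ, v ⬝ᵥ v = Helper91.SF.nsq v := by
    intro v
    simp only [dotProduct, Fin.sum_univ_three, Helper91.SF.nsq]
    ring
  have hGform : ∀ v : Fin 3 → ℝ, v ⬝ᵥ ((M⁻¹)ᵀ * M⁻¹) *ᵥ v = Helper91.SF.nsq (M⁻¹ *ᵥ v) := by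
    intro v
    rw [← hsq, ← mulVec_mulVec, dotProduct_mulVec, vecMul_transpose]
  have hG : ((M⁻¹)ᵀ * M⁻¹).PosDef := by
    have h1 : ((M⁻¹)ᵀ * M⁻¹).PosSemidef := by
      have := Matrix.posSemidef_conjTranspose_mul_self M⁻¹
      simpa [conjTranspose_eq_transpose_of_trivial] using this
    refine (Matrix.PosSemidef.posDef_iff_isUnit h1).2 ?_
    rw [Matrix.isUnit_iff_isUnit_det, isUnit_iff_ne_zero, det_mul, det_transpose]
    have : M⁻¹.det ≠ 0 := by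
      intro h0
      have := congrArg Matrix.det hM1
      rw [det_mul, h0, zero_mul, det_one] at this
      exact zero_ne_one this
    exact mul_ne_zero this this
  have hNform : ∀ y : Fin 3 → ℝ, y ⬝ᵥ ((3 * (1 + s) ^ 2) • (M * Mᵀ)) *ᵥ y
      = 3 * (1 + s) ^ 2 * Helper91.SF.nsq (Mᵀ *ᵥ y) := by
    intro y
    rw [Matrix.smul_mulVec, dotProduct_smul, ← mulVec_mulVec, dotProduct_mulVec,
      ← mulVec_transpose, smul_eq_mul, hsq]
  have hcs : ∀ a b : Fin 3 → ℝ, (a ⬝ᵥ b) ^ 2 ≤ Helper91.SF.nsq a * Helper91.SF.nsq b := by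
    intro a b
    simp only [dotProduct, Fin.sum_univ_three, Helper91.SF.nsq]
    nlinarith [sq_nonneg (a 0 * b 1 - a 1 * b 0), sq_nonneg (a 0 * b 2 - a 2 * b 0),
      sq_nonneg (a 1 * b 2 - a 2 * b 1)]
  have hE : ∀ x, (x - c) ⬝ᵥ ((M⁻¹)ᵀ * M⁻¹) *ᵥ (x - c) ≤ 1 → x ∈ K := by
    intro x hx
    rw [hGform] at hx
    have h1 := hball _ hx
    rw [Matrix.mulVec_mulVec, hM2, Matrix.one_mulVec] at h1
    have h2 := hcC _ h1
    simpa using h2
  have hN : ∀ x ∈ K, ∀ x' ∈ K, ∀ y : Fin 3 → ℝ,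
      (y ⬝ᵥ (x - x')) ^ 2 ≤ y ⬝ᵥ ((3 * (1 + s) ^ 2) • (M * Mᵀ)) *ᵥ y := by
    intro x hx x' hx' y
    rw [hNform]
    have hv : (1 / (1 + s)) • (x - x') ∈ C := ⟨(x, x'), ⟨hx, hx'⟩, rfl⟩
    obtain ⟨w, hw, hw3⟩ := hout _ hv
    have e : x - x' = (1 + s) • (M *ᵥ w) := by
      rw [hw, smul_smul]
      have : (1 + s) * (1 / (1 + s)) = 1 := by field_simp
      rw [this, one_smul]
    rw [e, dotProduct_smul, dotProduct_mulVec, ← mulVec_transpose, smul_eq_mul, mul_pow]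
    have h3 := hcs (Mᵀ *ᵥ y) w
    have h4 : 0 ≤ Helper91.SF.nsq (Mᵀ *ᵥ y) := by
      simp only [Helper91.SF.nsq]; positivity
    have h5 : Helper91.SF.nsq (Mᵀ *ᵥ y) * Helper91.SF.nsq w ≤ Helper91.SF.nsq (Mᵀ *ᵥ y) * 3 :=
      mul_le_mul_of_nonneg_left hw3 h4
    have h6 : ((Mᵀ *ᵥ y) ⬝ᵥ w) ^ 2 ≤ Helper91.SF.nsq (Mᵀ *ᵥ y) * 3 := h3.trans h5
    have h7 := mul_le_mul_of_nonneg_left h6 (sq_nonneg (1 + s))
    linarith
  obtain ⟨u, hu0, hu⟩ := criterion K _ _ hG c hE hN hfree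
  refine ⟨u, hu0, fun x hx x' hx' => ?_⟩
  have h1 := hu x hx x' hx'
  have htr : (((M⁻¹)ᵀ * M⁻¹) * ((3 * (1 + s) ^ 2) • (M * Mᵀ))).trace = 9 * (1 + s) ^ 2 := by
    rw [Matrix.mul_smul, Matrix.trace_smul]
    have : (M⁻¹)ᵀ * M⁻¹ * (M * Mᵀ) = 1 := by
      rw [Matrix.mul_assoc, ← Matrix.mul_assoc M⁻¹ M, hM1, Matrix.one_mul, ← Matrix.transpose_mul, hM2,
        Matrix.transpose_one]
    rw [this]
    simp
    ring
  rw [htr] at h1
  have h2 : (∑ i, (x i - x' i) * (u i : ℝ)) ^ 2 ≤ (3 * (1 + s) / 2) ^ 2 :=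
    h1.trans (le_of_eq (by ring))
  exact le_of_abs_le (abs_le_of_sq_le_sq h2 (by positivity))

end Pool.Agent.Helper22.Sym
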