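import Mathlib
import Pool.Agent.Helper22.Sym.Main

/-! S5: a position for bodies of bounded asymmetry about an arbitrary point.

Let `c` be a point of the body `K` and let `Y` be the set of the `y` with `(x - c)·y ≤ 1` for all `x ∈ K`.
Maximise `det A` over the convex set of the pairs `(A, b)`, `A` symmetric positive semidefinite, with
`y·A y + 2 b·y ≤ 1` for all `y ∈ Y`. -/

set_option autoImplicit false

namespace Pool.Agent.Helper22.Sym

open Matrix

/-- the feasible pairs -/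
def Feas (K : Set (Fin 3 → ℝ)) (c : Fin 3 → ℝ) : Set ((Fin 3 → Fin 3 → ℝ) × (Fin 3 → ℝ)) :=
  {p | (∀ i j, p.1 i j = p.1 j i) ∧
    (∀ v : Fin 3 → ℝ, 0 ≤ ∑ i, ∑ j, p.1 i j * v i * v j) ∧
    ∀ y : Fin 3 → ℝ, (∀ x ∈ K, ∑ i, (x i - c i) * y i ≤ 1) →
      ∑ i, ∑ j, p.1 i j * y i * y j + 2 * ∑ i, p.2 i * y i ≤ 1}

lemma feas_closed (K : Set (Fin 3 → ℝ)) (c : Fin 3 → ℝ) : IsClosed (Feas K c) := by
  have e : Feas K c = (⋂ i, ⋂ j, {p : (Fin 3 → Fin 3 → ℝ) × (Fin 3 → ℝ) | p.1 i j = p.1 j i}) ∩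
      ((⋂ v : Fin 3 → ℝ, {p : (Fin 3 → Fin 3 → ℝ) × (Fin 3 → ℝ) | 0 ≤ ∑ i, ∑ j, p.1 i j * v i * v j}) ∩
      ⋂ y : Fin 3 → ℝ, ⋂ _ : (∀ x ∈ K, ∑ i, (x i - c i) * y i ≤ 1),
        {p : (Fin 3 → Fin 3 → ℝ) × (Fin 3 → ℝ) |
          ∑ i, ∑ j, p.1 i j * y i * y j + 2 * ∑ i, p.2 i * y i ≤ 1}) := by
    ext p
    simp only [Feas, Set.mem_ofPred_eq, Set.mem_inter_iff, Set.mem_iInter]
  rw [e]
  refine IsClosed.inter ?_ (IsClosed.inter ?_ ?_)
  · refine isClosed_iInter fun i => isClosed_iInter fun j => ?_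
    exact isClosed_eq (by fun_prop) (by fun_prop)
  · refine isClosed_iInter fun v => ?_
    exact isClosed_le (by fun_prop) (by fun_prop)
  · refine isClosed_iInter fun y => isClosed_iInter fun _ => ?_
    exact isClosed_le (by fun_prop) (by fun_prop)

/-- bounds for the feasible pairs of a bounded body -/
lemma feas_bound (K : Set (Fin 3 → ℝ)) (c : Fin 3 → ℝ) (ρ : ℝ) (hρ : 0 < ρ)
    (hK : ∀ x ∈ K, ∀ i, |x i - c i| * ρ ≤ 1) (p : (Fin 3 → Fin 3 → ℝ) × (Fin 3 → ℝ))
    (hp : p ∈ Feas K c) : (∀ i j, |p.1 i j| ≤ 1 / ρ ^ 2) ∧ ∀ i, |p.2 i| ≤ 1 / ρ := by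
  obtain ⟨h1, h2, h3⟩ := hp
  have hd0 : ∀ i, 0 ≤ p.1 i i := by
    intro i
    have := h2 (Pi.single i 1)
    simpa [Pi.single_apply] using this
  have hy : ∀ i, ∀ σ : ℝ, |σ| = ρ → p.1 i i * ρ ^ 2 + 2 * (p.2 i * σ) ≤ 1 := by
    intro i σ hσ
    have := h3 (Pi.single i σ) ?_
    · have e : σ * σ = ρ ^ 2 := by rw [← hσ, sq_abs, sq]
      have e2 : ∑ a, ∑ b, p.1 a b * (Pi.single i σ : Fin 3 → ℝ) a * (Pi.single i σ : Fin 3 → ℝ) b
          = p.1 i i * (σ * σ) := by
        simp [Pi.single_apply]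
        ring
      have e3 : ∑ a, p.2 a * (Pi.single i σ : Fin 3 → ℝ) a = p.2 i * σ := by
        simp [Pi.single_apply]
      rw [e2, e3, e] at this
      exact this
    · intro x hx
      have e3 : ∑ a, (x a - c a) * (Pi.single i σ : Fin 3 → ℝ) a = (x i - c i) * σ := by
        simp [Pi.single_apply]
      rw [e3]
      calc (x i - c i) * σ ≤ |(x i - c i) * σ| := le_abs_self _
        _ = |x i - c i| * ρ := by rw [abs_mul, hσ]
        _ ≤ 1 := hK x hx i
  have hdiag : ∀ i, p.1 i i * ρ ^ 2 ≤ 1 := by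
    intro i
    have a := hy i ρ (abs_of_pos hρ)
    have b := hy i (-ρ) (by rw [abs_neg, abs_of_pos hρ])
    linarith
  have hb : ∀ i, |p.2 i| * ρ ≤ 1 := by
    intro i
    have a := hy i ρ (abs_of_pos hρ)
    have b := hy i (-ρ) (by rw [abs_neg, abs_of_pos hρ])
    have h0 := mul_nonneg (hd0 i) (sq_nonneg ρ)
    rcases abs_cases (p.2 i) with ⟨h, _⟩ | ⟨h, _⟩ <;> rw [h] <;> nlinarith
  have hoff : ∀ i j, |p.1 i j| * ρ ^ 2 ≤ 1 := by
    intro i j
    have a := h2 (Pi.single i 1 + Pi.single j 1)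
    have b := h2 (Pi.single i 1 - Pi.single j 1)
    have e1 : ∑ a, ∑ b, p.1 a b * (Pi.single i 1 + Pi.single j 1 : Fin 3 → ℝ) a *
        (Pi.single i 1 + Pi.single j 1 : Fin 3 → ℝ) b = p.1 i i + p.1 j j + 2 * p.1 i j := by
      have hij := h1 j i
      simp only [Pi.add_apply, mul_add, add_mul, Finset.sum_add_distrib]
      simp [Pi.single_apply]
      linarith
    have e2 : ∑ a, ∑ b, p.1 a b * (Pi.single i 1 - Pi.single j 1 : Fin 3 → ℝ) a *
        (Pi.single i 1 - Pi.single j 1 : Fin 3 → ℝ) b = p.1 i i + p.1 j j - 2 * p.1 i j := by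
      have hij := h1 j i
      simp only [Pi.sub_apply, mul_sub, sub_mul, Finset.sum_sub_distrib]
      simp [Pi.single_apply]
      linarith
    rw [e1] at a
    rw [e2] at b
    have d1 := hdiag i
    have d2 := hdiag j
    have hρ2 : 0 < ρ ^ 2 := by positivity
    rcases abs_cases (p.1 i j) with ⟨h, _⟩ | ⟨h, _⟩ <;> rw [h] <;> nlinarith
  refine ⟨fun i j => ?_, fun i => ?_⟩
  · rw [le_div_iff₀ (by positivity)]; exact hoff i j
  · rw [le_div_iff₀ hρ]; exact hb i

lemma feas_compact (K : Set (Fin 3 → ℝ)) (c : Fin 3 → ℝ) (hK : IsCompact K) : IsCompact (Feas K c) := by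
  obtain ⟨R, hR⟩ := hK.isBounded.exists_norm_le
  set ρ : ℝ := 1 / (|R| + ‖c‖ + 1) with hρdef
  have hden : 0 < |R| + ‖c‖ + 1 := by positivity
  have hρ : 0 < ρ := by positivity
  have hKb : ∀ x ∈ K, ∀ i, |x i - c i| * ρ ≤ 1 := by
    intro x hx i
    have h1 : |x i - c i| ≤ |R| + ‖c‖ + 1 := by
      have a := norm_le_pi_norm x i
      have b := norm_le_pi_norm c i
      have d := hR x hx
      have e := le_abs_self R
      rw [Real.norm_eq_abs] at a b
      have := abs_sub (x i) (c i)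
      linarith
    rw [hρdef, mul_one_div, div_le_one hden]
    exact h1
  refine Metric.isCompact_of_isClosed_isBounded (feas_closed K c) ?_
  rw [isBounded_iff_forall_norm_le]
  refine ⟨max (1 / ρ ^ 2) (1 / ρ), fun p hp => ?_⟩
  obtain ⟨h1, h2⟩ := feas_bound K c ρ hρ hKb p hp
  rw [Prod.norm_def]
  refine max_le_max ?_ ?_
  · rw [pi_norm_le_iff_of_nonneg (by positivity)]
    intro i
    rw [pi_norm_le_iff_of_nonneg (by positivity)]
    intro j
    rw [Real.norm_eq_abs]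
    exact h1 i j
  · rw [pi_norm_le_iff_of_nonneg (by positivity)]
    intro i
    rw [Real.norm_eq_abs]
    exact h2 i

/-- the determinant of a convex combination with a matrix of rank one -/
lemma det_rank_one (A : Matrix (Fin 3) (Fin 3) ℝ) (d : Fin 3 → ℝ) (α β : ℝ) :
    (α • A + β • vecMulVec d d).det
      = α ^ 3 * A.det + α ^ 2 * β * (d ⬝ᵥ A.adjugate *ᵥ d) := by
  simp [Matrix.det_fin_three, vecMulVec, dotProduct, Fin.sum_univ_three, Matrix.adjugate_fin_three,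
    Matrix.mulVec]
  ring

/-- quadratic forms in sum notation -/
lemma form_sum (A : Fin 3 → Fin 3 → ℝ) (y : Fin 3 → ℝ) :
    ∑ i, ∑ j, A i j * y i * y j = y ⬝ᵥ (Matrix.of A) *ᵥ y := by
  simp only [dotProduct, Matrix.mulVec, Fin.sum_univ_three, Matrix.of_apply]
  ring

/-- The position: a feasible pair with positive definite `A` such that every feasible pair of the form
`(β d d^T, e)` with `β ≥ 0` satisfies `β (y·d)² ≤ 3 y·A y` for all `y`. -/
theorem exists_position (K : Set (Fin 3 → ℝ)) (hK : IsCompact K) (c : Fin 3 → ℝ) (hc : c ∈ interior K) :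
    ∃ (A : Matrix (Fin 3) (Fin 3) ℝ) (b : Fin 3 → ℝ), A.PosDef ∧
      (∀ y : Fin 3 → ℝ, (∀ x ∈ K, (x - c) ⬝ᵥ y ≤ 1) → y ⬝ᵥ A *ᵥ y + 2 * (b ⬝ᵥ y) ≤ 1) ∧
      ∀ (β : ℝ) (d e : Fin 3 → ℝ), 0 ≤ β →
        (∀ y : Fin 3 → ℝ, (∀ x ∈ K, (x - c) ⬝ᵥ y ≤ 1) → β * (y ⬝ᵥ d) ^ 2 + 2 * (e ⬝ᵥ y) ≤ 1) →
        ∀ y : Fin 3 → ℝ, β * (y ⬝ᵥ d) ^ 2 ≤ 3 * (y ⬝ᵥ A *ᵥ y) := by
  have hcomp := feas_compact K c hK
  -- a feasible pair with positive determinant
  obtain ⟨r, hr, hball⟩ : ∃ r : ℝ, 0 < r ∧ ∀ x : Fin 3 → ℝ, (∀ i, |x i - c i| ≤ r) → x ∈ K := by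
    rw [mem_interior_iff_mem_nhds, Metric.mem_nhds_iff] at hc
    obtain ⟨ε, hε, hb⟩ := hc
    refine ⟨ε / 2, by positivity, fun x hx => hb ?_⟩
    rw [Metric.mem_ball, dist_pi_lt_iff hε]
    intro i
    rw [Real.dist_eq]
    exact lt_of_le_of_lt (hx i) (by linarith)
  have hsq : ∀ y : Fin 3 → ℝ, (∀ x ∈ K, ∑ i, (x i - c i) * y i ≤ 1) →
      r ^ 2 * (y 0 ^ 2 + y 1 ^ 2 + y 2 ^ 2) ≤ 1 := by
    intro y hy
    have h1 := hy (fun i => c i + r * (if 0 ≤ y i then 1 else -1)) (hball _ (by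
      intro i
      have : c i + r * (if 0 ≤ y i then (1:ℝ) else -1) - c i = r * (if 0 ≤ y i then 1 else -1) := by ring
      rw [this, abs_mul, abs_of_pos hr]
      split_ifs <;> simp))
    have h2 : ∑ i, (c i + r * (if 0 ≤ y i then (1:ℝ) else -1) - c i) * y i = r * ∑ i, |y i| := by
      rw [Finset.mul_sum]
      refine Finset.sum_congr rfl fun i _ => ?_
      split_ifs with h
      · rw [abs_of_nonneg h]; ring
      · rw [abs_of_neg (not_le.mp h)]; ring
    rw [h2, Fin.sum_univ_three] at h1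
    have a0 := abs_nonneg (y 0)
    have a1 := abs_nonneg (y 1)
    have a2 := abs_nonneg (y 2)
    rw [← sq_abs (y 0), ← sq_abs (y 1), ← sq_abs (y 2)]
    have h3 : 0 ≤ r * (|y 0| + |y 1| + |y 2|) := by positivity
    have h4 : (r * (|y 0| + |y 1| + |y 2|)) ^ 2 ≤ 1 := by
      have := mul_le_mul h1 h1 h3 zero_le_one
      nlinarith
    have h5 : r ^ 2 * (|y 0| ^ 2 + |y 1| ^ 2 + |y 2| ^ 2) ≤ (r * (|y 0| + |y 1| + |y 2|)) ^ 2 := by
      have : 0 ≤ r ^ 2 * (2 * (|y 0| * |y 1| + |y 0| * |y 2| + |y 1| * |y 2|)) := by positivity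
      nlinarith
    linarith
  set p0 : (Fin 3 → Fin 3 → ℝ) × (Fin 3 → ℝ) := (fun i j => if i = j then r ^ 2 else 0, 0) with hp0
  have hp0F : p0 ∈ Feas K c := by
    refine ⟨fun i j => by simp [hp0, eq_comm], fun v => ?_, fun y hy => ?_⟩
    · have : ∑ i, ∑ j, p0.1 i j * v i * v j = r ^ 2 * (v 0 ^ 2 + v 1 ^ 2 + v 2 ^ 2) := by
        simp [hp0, Fin.sum_univ_three]; ring
      rw [this]; positivity
    · have : ∑ i, ∑ j, p0.1 i j * y i * y j + 2 * ∑ i, p0.2 i * y i
          = r ^ 2 * (y 0 ^ 2 + y 1 ^ 2 + y 2 ^ 2) := by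
        simp [hp0, Fin.sum_univ_three]; ring
      rw [this]
      exact hsq y hy
  obtain ⟨p, hpF, hpmax⟩ := hcomp.exists_isMaxOn ⟨p0, hp0F⟩
    (f := fun p : (Fin 3 → Fin 3 → ℝ) × (Fin 3 → ℝ) => (Matrix.of p.1).det) (by
      apply Continuous.continuousOn
      simp only [Matrix.det_fin_three, Matrix.of_apply]
      fun_prop)
  have hmax : ∀ q ∈ Feas K c, (Matrix.of q.1).det ≤ (Matrix.of p.1).det := fun q hq => hpmax hq
  have hdet0 : 0 < (Matrix.of p.1).det := by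
    refine lt_of_lt_of_le ?_ (hmax p0 hp0F)
    have : (Matrix.of p0.1).det = r ^ 6 := by
      simp [hp0, Matrix.det_fin_three]; ring
    rw [this]; positivity
  set A : Matrix (Fin 3) (Fin 3) ℝ := Matrix.of p.1 with hA
  have hAherm : A.IsHermitian := by
    ext i j
    simp only [Matrix.conjTranspose_apply, star_trivial, hA, Matrix.of_apply]
    exact hpF.1 j i
  have hApsd : A.PosSemidef := by
    refine Matrix.PosSemidef.of_dotProduct_mulVec_nonneg hAherm fun v => ?_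
    have := hpF.2.1 v
    rw [form_sum] at this
    simpa using this
  have hApd : A.PosDef := by
    refine (Matrix.PosSemidef.posDef_iff_isUnit hApsd).2 ?_
    rw [Matrix.isUnit_iff_isUnit_det, isUnit_iff_ne_zero]
    exact hdet0.ne'
  refine ⟨A, p.2, hApd, ?_, ?_⟩
  · intro y hy
    have := hpF.2.2 y (fun x hx => by
      have := hy x hx
      simpa [dotProduct] using this)
    rw [form_sum] at this
    simpa [dotProduct] using this
  · intro β d e hβ hfe
    -- D-optimality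
    set Q := d ⬝ᵥ A.adjugate *ᵥ d with hQ
    have hopt : β * Q ≤ 3 * A.det := by
      by_contra hcon
      push Not at hcon
      have hin : ∀ τ : ℝ, 0 ≤ τ → τ ≤ 1 → (1 - τ) ^ 3 * A.det + (1 - τ) ^ 2 * (τ * β) * Q ≤ A.det := by
        intro τ h0 h1
        rw [hQ, ← det_rank_one]
        have hq : ((fun i j => (1 - τ) * p.1 i j + τ * (β * (d i * d j)), fun i => (1 - τ) * p.2 i + τ * e i) :
            (Fin 3 → Fin 3 → ℝ) × (Fin 3 → ℝ)) ∈ Feas K c := by
          refine ⟨fun i j => ?_, fun v => ?_, fun y hy => ?_⟩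
          · simp only
            rw [hpF.1 i j]; ring
          · have h2 := hpF.2.1 v
            have e1 : ∑ i, ∑ j, ((1 - τ) * p.1 i j + τ * (β * (d i * d j))) * v i * v j
                = (1 - τ) * (∑ i, ∑ j, p.1 i j * v i * v j) + τ * β * (v ⬝ᵥ d) ^ 2 := by
              simp only [dotProduct, Fin.sum_univ_three]; ring
            simp only
            rw [e1]
            have := mul_nonneg (by linarith : (0:ℝ) ≤ 1 - τ) h2
            have := mul_nonneg (mul_nonneg h0 hβ) (sq_nonneg (v ⬝ᵥ d))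
            linarith
          · have h2 := hpF.2.2 y hy
            have h3 := hfe y (fun x hx => by
              have := hy x hx
              simpa [dotProduct] using this)
            have e1 : ∑ i, ∑ j, ((1 - τ) * p.1 i j + τ * (β * (d i * d j))) * y i * y j
                + 2 * ∑ i, ((1 - τ) * p.2 i + τ * e i) * y i
                = (1 - τ) * (∑ i, ∑ j, p.1 i j * y i * y j + 2 * ∑ i, p.2 i * y i)
                  + τ * (β * (y ⬝ᵥ d) ^ 2 + 2 * (e ⬝ᵥ y)) := by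
              simp only [dotProduct, Fin.sum_univ_three]; ring
            simp only
            rw [e1]
            have a := mul_le_mul_of_nonneg_left h2 (by linarith : (0:ℝ) ≤ 1 - τ)
            have b := mul_le_mul_of_nonneg_left h3 h0
            linarith
        have h4 := hmax _ hq
        have e2 : (Matrix.of (fun i j => (1 - τ) * p.1 i j + τ * (β * (d i * d j))))
            = (1 - τ) • A + (τ * β) • vecMulVec d d := by
          ext i j
          simp only [Matrix.of_apply, Matrix.add_apply, Matrix.smul_apply, vecMulVec_apply, hA, smul_eq_mul]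
          ring
        rw [e2] at h4
        exact h4
      -- small τ
      set D := A.det with hD
      have hDpos : 0 < D := hdet0
      set δ := β * Q - 3 * D with hδ
      have hδ0 : 0 < δ := by rw [hδ]; linarith
      -- (1-τ)^2 ((1-τ) D + τ (3 D + δ)) ≤ D
      set τ := min 1 (min (δ / (6 * D + 2 * δ)) (1/4)) with hτ
      have hden : 0 < 6 * D + 2 * δ := by positivity
      have hτ0 : 0 < τ := by
        rw [hτ]
        simp only [lt_min_iff]
        exact ⟨one_pos, div_pos hδ0 hden, by norm_num⟩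
      have hτ1 : τ ≤ 1 := min_le_left _ _
      have hτ2 : τ * (6 * D + 2 * δ) ≤ δ := by
        have : τ ≤ δ / (6 * D + 2 * δ) := (min_le_right _ _).trans (min_le_left _ _)
        rwa [le_div_iff₀ hden] at this
      have h5 := hin τ hτ0.le hτ1
      have hQe : β * Q = 3 * D + δ := by rw [hδ]; ring
      have h6 : (1 - τ) ^ 3 * D + (1 - τ) ^ 2 * (τ * β) * Q
          = (1 - τ) ^ 2 * ((1 - τ) * D + τ * (3 * D + δ)) := by
        rw [← hQe]; ring
      rw [h6] at h5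
      have h7 : (1 - τ) ^ 2 * ((1 - τ) * D + τ * (3 * D + δ)) - D
          = τ * (δ - τ * (3 * D + 2 * δ) + τ ^ 2 * (2 * D + δ)) := by ring
      have h8 : 0 < δ - τ * (3 * D + 2 * δ) + τ ^ 2 * (2 * D + δ) := by
        have a : 0 < τ ^ 2 * (2 * D + δ) := by positivity
        have b : τ * (3 * D + 2 * δ) ≤ τ * (6 * D + 2 * δ) := mul_le_mul_of_nonneg_left (by linarith) hτ0.le
        linarith
      have h9 := mul_pos hτ0 h8
      linarith
    -- Cauchy-Schwarz with the adjugate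
    intro y
    have hadj : A * A.adjugate = A.det • (1 : Matrix (Fin 3) (Fin 3) ℝ) := Matrix.mul_adjugate A
    have hAt : Aᵀ = A := by
      have := hAherm.eq
      simpa using this
    have hCS : (y ⬝ᵥ d) ^ 2 * A.det ≤ (y ⬝ᵥ A *ᵥ y) * Q := by
      -- the vector w = A.adjugate d has A w = det A d
      set w := A.adjugate *ᵥ d with hw
      have hAw : A *ᵥ w = A.det • d := by
        rw [hw, Matrix.mulVec_mulVec, hadj, Matrix.smul_mulVec, Matrix.one_mulVec]
      have hpos : ∀ v : Fin 3 → ℝ, 0 ≤ v ⬝ᵥ A *ᵥ v := fun v => by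
        have := hApsd.dotProduct_mulVec_nonneg v
        simpa using this
      have hww : w ⬝ᵥ A *ᵥ w = A.det * Q := by
        rw [hAw, dotProduct_smul, smul_eq_mul, hQ, dotProduct_comm w d]
      have hyw : y ⬝ᵥ A *ᵥ w = A.det * (y ⬝ᵥ d) := by
        rw [hAw, dotProduct_smul, smul_eq_mul]
      have hwy : w ⬝ᵥ A *ᵥ y = A.det * (y ⬝ᵥ d) := by
        rw [symm_form A hApd, hyw]
      have hlin : ∀ l : ℝ, 0 ≤ (y ⬝ᵥ A *ᵥ y) - 2 * l * (A.det * (y ⬝ᵥ d)) + l ^ 2 * (A.det * Q) := by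
        intro l
        have := hpos (y - l • w)
        rw [Matrix.mulVec_sub, Matrix.mulVec_smul, dotProduct_sub, sub_dotProduct, sub_dotProduct,
          dotProduct_smul, smul_dotProduct, smul_dotProduct, dotProduct_smul, hww, hyw, hwy] at this
        simp only [smul_eq_mul] at this
        nlinarith
      have hdisc := discrim_le_zero (a := A.det * Q) (b := -2 * (A.det * (y ⬝ᵥ d))) (c := y ⬝ᵥ A *ᵥ y)
        (fun l => by have := hlin l; nlinarith)
      unfold discrim at hdisc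
      have hD : 0 < A.det := hdet0
      have : A.det * (A.det * (y ⬝ᵥ d) ^ 2 - (y ⬝ᵥ A *ᵥ y) * Q) ≤ 0 := by nlinarith
      have := (mul_nonpos_iff_pos_imp_nonpos).1 this |>.1 hD
      linarith
    have hD : 0 < A.det := hdet0
    have hyy : 0 ≤ y ⬝ᵥ A *ᵥ y := by
      have := hApsd.dotProduct_mulVec_nonneg y
      simpa using this
    have h1 : β * (y ⬝ᵥ d) ^ 2 * A.det ≤ 3 * (y ⬝ᵥ A *ᵥ y) * A.det := by
      have a := mul_le_mul_of_nonneg_left hCS hβ
      have b := mul_le_mul_of_nonneg_left hopt hyy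
      nlinarith
    exact le_of_mul_le_mul_right h1 hD

/-- Cauchy-Schwarz for a positive definite matrix and its inverse -/
lemma cs_inv (M : Matrix (Fin 3) (Fin 3) ℝ) (hM : M.PosDef) (u y : Fin 3 → ℝ) :
    (u ⬝ᵥ y) ^ 2 ≤ (u ⬝ᵥ M⁻¹ *ᵥ u) * (y ⬝ᵥ M *ᵥ y) := by
  have hunit : IsUnit M.det := (Matrix.isUnit_iff_isUnit_det M).1 hM.isUnit
  have hMi : M * M⁻¹ = 1 := Matrix.mul_nonsing_inv M hunit
  set w := M⁻¹ *ᵥ u with hw
  have hMw : M *ᵥ w = u := by rw [hw, Matrix.mulVec_mulVec, hMi, Matrix.one_mulVec]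
  have hpos : ∀ v : Fin 3 → ℝ, 0 ≤ v ⬝ᵥ M *ᵥ v := fun v => by
    have := hM.posSemidef.dotProduct_mulVec_nonneg v
    simpa using this
  have hww : w ⬝ᵥ M *ᵥ w = u ⬝ᵥ M⁻¹ *ᵥ u := by rw [hMw, dotProduct_comm]
  have hyw : y ⬝ᵥ M *ᵥ w = u ⬝ᵥ y := by rw [hMw, dotProduct_comm]
  have hwy : w ⬝ᵥ M *ᵥ y = u ⬝ᵥ y := by rw [symm_form M hM, hyw]
  have hlin : ∀ l : ℝ, 0 ≤ (u ⬝ᵥ M⁻¹ *ᵥ u) * (l * l) + (-2 * (u ⬝ᵥ y)) * l + y ⬝ᵥ M *ᵥ y := by
    intro l
    have := hpos (y - l • w)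
    rw [Matrix.mulVec_sub, Matrix.mulVec_smul, dotProduct_sub, sub_dotProduct, sub_dotProduct,
      dotProduct_smul, smul_dotProduct, smul_dotProduct, dotProduct_smul, hww, hyw, hwy] at this
    simp only [smul_eq_mul] at this
    nlinarith
  have hdisc := discrim_le_zero hlin
  unfold discrim at hdisc
  nlinarith

/-- **The lattice width of a lattice-free body of asymmetry at most `s` about some point.** -/
theorem asym2 (K : Set (Fin 3 → ℝ)) (hK : IsCompact K) (hcv : Convex ℝ K) (hint : (interior K).Nonempty)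
    (hfree : ∀ z : Fin 3 → ℤ, (fun i => (z i : ℝ)) ∉ interior K)
    (c : Fin 3 → ℝ) (s : ℝ) (hs : 0 < s) (hsym : ∀ x ∈ K, c - (1 / s) • (x - c) ∈ K) :
    ∃ u : Fin 3 → ℤ, u ≠ 0 ∧ ∀ x ∈ K, ∀ x' ∈ K,
      (∑ i, (x i - x' i) * (u i : ℝ)) ^ 2 ≤ 9 * (1 + s) / 2 := by
  have h1s : 0 < 1 + s := by linarith
  -- the point `c` is an interior point
  have hcint : c ∈ interior K := by
    obtain ⟨x0, hx0⟩ := hint
    have h1 := hsym x0 (interior_subset hx0)
    have h2 := hcv.combo_interior_self_mem_interior hx0 h1 (show (0 : ℝ) < 1 / (1 + s) by positivity)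
      (show (0 : ℝ) ≤ s / (1 + s) by positivity) (by field_simp)
    convert h2 using 1
    funext i
    simp only [Pi.smul_apply, Pi.sub_apply, Pi.add_apply, smul_eq_mul]
    field_simp
    ring
  have hcK : c ∈ K := interior_subset hcint
  obtain ⟨A, b, hA, hAb, hopt⟩ := exists_position K hK c hcint
  -- widths
  have hwid : ∀ x ∈ K, ∀ x' ∈ K, ∀ y : Fin 3 → ℝ,
      (y ⬝ᵥ (x - x')) ^ 2 ≤ 6 * (1 + s) * (y ⬝ᵥ A *ᵥ y) := by
    intro x hx x' hx' y
    have h := hopt (1 / (2 * (1 + s))) (x - x') ((1 / 4 : ℝ) • ((x - c) + (x' - c))) (by positivity) ?_ y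
    · rw [div_mul_eq_mul_div, one_mul, div_le_iff₀ (by positivity)] at h
      linarith
    · intro y hy
      set t := (x - c) ⬝ᵥ y with ht
      set t' := (x' - c) ⬝ᵥ y with ht'
      have a1 : t ≤ 1 := hy x hx
      have a2 : t' ≤ 1 := hy x' hx'
      have a3 : -s ≤ t := by
        have := hy _ (hsym x hx)
        have e : (c - (1 / s) • (x - c) - c) ⬝ᵥ y = -(1 / s) * t := by
          rw [ht]; simp only [dotProduct, Fin.sum_univ_three, Pi.sub_apply, Pi.smul_apply, smul_eq_mul]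
          ring
        rw [e] at this
        have h2 := mul_le_mul_of_nonneg_left this hs.le
        have e2 : s * (-(1 / s) * t) = -t := by field_simp
        linarith
      have a4 : -s ≤ t' := by
        have := hy _ (hsym x' hx')
        have e : (c - (1 / s) • (x' - c) - c) ⬝ᵥ y = -(1 / s) * t' := by
          rw [ht']; simp only [dotProduct, Fin.sum_univ_three, Pi.sub_apply, Pi.smul_apply, smul_eq_mul]
          ring
        rw [e] at this
        have h2 := mul_le_mul_of_nonneg_left this hs.le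
        have e2 : s * (-(1 / s) * t') = -t' := by field_simp
        linarith
      have e1 : y ⬝ᵥ (x - x') = t - t' := by
        rw [ht, ht']; simp only [dotProduct, Fin.sum_univ_three, Pi.sub_apply]; ring
      have e2 : ((1 / 4 : ℝ) • ((x - c) + (x' - c))) ⬝ᵥ y = (t + t') / 4 := by
        rw [ht, ht']; simp only [dotProduct, Fin.sum_univ_three, Pi.sub_apply, Pi.smul_apply,
          Pi.add_apply, smul_eq_mul]; ring
      rw [e1, e2, div_mul_eq_mul_div, one_mul]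
      have h3 : (t - t') ^ 2 ≤ 2 * (1 + s) * (1 - (t + t') / 2) := by
        nlinarith [mul_nonneg (sub_nonneg.2 a1) (by linarith : 0 ≤ s + t),
          mul_nonneg (sub_nonneg.2 a2) (by linarith : 0 ≤ s + t'),
          mul_nonneg (sub_nonneg.2 a1) (sub_nonneg.2 a2)]
      have h4 : (t - t') ^ 2 / (2 * (1 + s)) ≤ 1 - (t + t') / 2 := by
        rw [div_le_iff₀ (by positivity)]; linarith
      linarith
  -- the ellipsoid
  set M : Matrix (Fin 3) (Fin 3) ℝ := A + vecMulVec b b with hM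
  have hbb : (vecMulVec b b).PosSemidef := by
    have := Matrix.posSemidef_vecMulVec_self_star b
    simpa using this
  have hMpd : M.PosDef := hA.add_posSemidef hbb
  have hunit : IsUnit M.det := (Matrix.isUnit_iff_isUnit_det M).1 hMpd.isUnit
  have hMi : M⁻¹ * M = 1 := Matrix.nonsing_inv_mul M hunit
  have hMform : ∀ y : Fin 3 → ℝ, y ⬝ᵥ M *ᵥ y = y ⬝ᵥ A *ᵥ y + (b ⬝ᵥ y) ^ 2 := by
    intro y
    rw [hM, Matrix.add_mulVec, dotProduct_add]
    congr 1
    simp only [dotProduct, Matrix.mulVec, vecMulVec_apply, Fin.sum_univ_three]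
    ring
  have hE : ∀ x, (x - (c + b)) ⬝ᵥ M⁻¹ *ᵥ (x - (c + b)) ≤ 1 → x ∈ K := by
    intro x hx
    by_contra hxK
    obtain ⟨f, α, hf, hfα⟩ := geometric_hahn_banach_closed_point hcv hK.isClosed hxK
    set ψ : Fin 3 → ℝ := fun i => f (Pi.single i 1) with hψ
    have hfψ : ∀ x, f x = x ⬝ᵥ ψ := by
      intro x
      have hx : x = ∑ i, x i • (Pi.single i (1 : ℝ) : Fin 3 → ℝ) := by
        funext j
        simp [Finset.sum_apply, Pi.single_apply]
      conv_lhs => rw [hx]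
      rw [map_sum]
      simp only [map_smul, smul_eq_mul, dotProduct, hψ]
    have hγ : 0 < α - c ⬝ᵥ ψ := by
      have := hf c hcK
      rw [hfψ] at this
      linarith
    set γ := α - c ⬝ᵥ ψ with hγdef
    set y : Fin 3 → ℝ := γ⁻¹ • ψ with hy
    have hyY : ∀ x' ∈ K, (x' - c) ⬝ᵥ y ≤ 1 := by
      intro x' hx'
      have h1 := hf x' hx'
      rw [hfψ] at h1
      rw [hy, dotProduct_smul, smul_eq_mul, sub_dotProduct, inv_mul_le_iff₀ hγ, mul_one]
      linarith
    have hxy : 1 < (x - c) ⬝ᵥ y := by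
      rw [hfψ] at hfα
      rw [hy, dotProduct_smul, smul_eq_mul, sub_dotProduct, lt_inv_mul_iff₀ hγ, mul_one]
      linarith
    have h1 := hAb y hyY
    have hA0 : 0 ≤ y ⬝ᵥ A *ᵥ y := by
      have := hA.posSemidef.dotProduct_mulVec_nonneg y
      simpa using this
    have h2 : y ⬝ᵥ M *ᵥ y ≤ (1 - b ⬝ᵥ y) ^ 2 := by
      rw [hMform]; nlinarith
    have h3 : b ⬝ᵥ y ≤ 1 / 2 := by linarith
    have hcs := cs_inv M hMpd (x - (c + b)) y
    have h4 : (x - (c + b)) ⬝ᵥ y = (x - c) ⬝ᵥ y - b ⬝ᵥ y := by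
      simp only [dotProduct, Fin.sum_univ_three, Pi.sub_apply, Pi.add_apply]; ring
    have hM0 : 0 ≤ y ⬝ᵥ M *ᵥ y := by
      have := hMpd.posSemidef.dotProduct_mulVec_nonneg y
      simpa using this
    have h5 : ((x - (c + b)) ⬝ᵥ y) ^ 2 ≤ (1 - b ⬝ᵥ y) ^ 2 := by
      have := mul_le_mul_of_nonneg_right hx hM0
      linarith
    rw [h4] at h5
    have h6 : 1 - b ⬝ᵥ y < (x - c) ⬝ᵥ y - b ⬝ᵥ y := by linarith
    nlinarith
  have hN : ∀ x ∈ K, ∀ x' ∈ K, ∀ y : Fin 3 → ℝ,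
      (y ⬝ᵥ (x - x')) ^ 2 ≤ y ⬝ᵥ ((6 * (1 + s)) • A) *ᵥ y := by
    intro x hx x' hx' y
    rw [Matrix.smul_mulVec, dotProduct_smul, smul_eq_mul]
    exact hwid x hx x' hx' y
  obtain ⟨u, hu0, hu⟩ := criterion K M⁻¹ _ hMpd.inv (c + b) hE hN hfree
  refine ⟨u, hu0, fun x hx x' hx' => (hu x hx x' hx').trans ?_⟩
  -- the trace
  have htr : (M⁻¹ * ((6 * (1 + s)) • A)).trace = 6 * (1 + s) * (3 - b ⬝ᵥ M⁻¹ *ᵥ b) := by
    rw [Matrix.mul_smul, Matrix.trace_smul, smul_eq_mul]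
    have e1 : A = M - vecMulVec b b := by rw [hM]; simp
    have e2 : (M⁻¹ * A).trace = 3 - b ⬝ᵥ M⁻¹ *ᵥ b := by
      conv_lhs => rw [e1]
      rw [Matrix.mul_sub, hMi, Matrix.trace_sub, Matrix.trace_one, Matrix.mul_vecMulVec,
        Matrix.trace_vecMulVec, dotProduct_comm]
      simp
    rw [e2]
  have hb0 : 0 ≤ b ⬝ᵥ M⁻¹ *ᵥ b := by
    have := hMpd.inv.posSemidef.dotProduct_mulVec_nonneg b
    simpa using this
  rw [htr]
  have := mul_nonneg h1s.le hb0
  nlinarith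

end Pool.Agent.Helper22.Sym
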