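import Mathlib
import Pool.Agent.Helper91.SF.John

/-! S5 / (S): the symmetric John position (from `john_symm` of helper91). -/

set_option autoImplicit false

namespace Pool.Agent.Helper22.Sym

open Matrix

/-- A symmetric convex body `C` in dimension three lies between an ellipsoid and `√3` times this ellipsoid;
`M` is the matrix of the squared support function of the ellipsoid. -/
theorem exists_form (C : Set (Fin 3 → ℝ)) (hC : IsCompact C) (hcv : Convex ℝ C)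
    (hsymm : ∀ x ∈ C, -x ∈ C) (hint : (interior C).Nonempty) :
    ∃ M : Matrix (Fin 3) (Fin 3) ℝ, M.PosDef ∧
      (∀ y : Fin 3 → ℝ, ∃ x ∈ C, y ⬝ᵥ M *ᵥ y ≤ (x ⬝ᵥ y) ^ 2) ∧
      ∀ x ∈ C, ∀ y : Fin 3 → ℝ, (x ⬝ᵥ y) ^ 2 ≤ 3 * (y ⬝ᵥ M *ᵥ y) := by
  obtain ⟨N, hdet, hball, hout⟩ := Helper91.SF.john_symm C hcv hC hsymm hint
  simp only [Helper91.SF.nsq] at hball hout
  have hform : ∀ y : Fin 3 → ℝ, y ⬝ᵥ (N * Nᵀ) *ᵥ y = (Nᵀ *ᵥ y) ⬝ᵥ (Nᵀ *ᵥ y) := by
    intro y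
    rw [← mulVec_mulVec, dotProduct_mulVec, mulVec_transpose]
  have hin : ∀ (u y : Fin 3 → ℝ), (N *ᵥ u) ⬝ᵥ y = u ⬝ᵥ (Nᵀ *ᵥ y) := by
    intro u y
    rw [dotProduct_comm, dotProduct_mulVec, dotProduct_comm, mulVec_transpose]
  have hsq : ∀ v : Fin 3 → ℝ, v ⬝ᵥ v = v 0 ^ 2 + v 1 ^ 2 + v 2 ^ 2 := by
    intro v
    simp only [dotProduct, Fin.sum_univ_three]
    ring
  refine ⟨N * Nᵀ, ?_, ?_, ?_⟩
  · have h1 : (N * Nᵀ).PosSemidef := by
      have := Matrix.posSemidef_self_mul_conjTranspose N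
      simpa [conjTranspose_eq_transpose_of_trivial] using this
    refine (Matrix.PosSemidef.posDef_iff_isUnit h1).2 ?_
    rw [Matrix.isUnit_iff_isUnit_det, isUnit_iff_ne_zero, det_mul, det_transpose]
    exact mul_ne_zero hdet hdet
  · intro y
    rw [hform]
    set v := Nᵀ *ᵥ y with hv
    by_cases h0 : v ⬝ᵥ v = 0
    · obtain ⟨x, hx⟩ := hint
      refine ⟨x, interior_subset hx, ?_⟩
      rw [h0]
      positivity
    · have hpos : 0 < v ⬝ᵥ v := lt_of_le_of_ne (by rw [hsq]; positivity) (Ne.symm h0)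
      set s := Real.sqrt (v ⬝ᵥ v) with hsdef
      have hs0 : 0 < s := Real.sqrt_pos.2 hpos
      have hss : s ^ 2 = v ⬝ᵥ v := Real.sq_sqrt hpos.le
      refine ⟨N *ᵥ (s⁻¹ • v), hball _ ?_, ?_⟩
      · rw [← hsq, smul_dotProduct, dotProduct_smul, ← hss]
        simp only [smul_eq_mul]
        field_simp
        exact le_refl _
      · rw [hin, ← hv, smul_dotProduct, ← hss]
        simp only [smul_eq_mul]
        apply le_of_eq
        field_simp
  · intro x hx y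
    obtain ⟨u, rfl, hu⟩ := hout x hx
    rw [hin, hform]
    set v := Nᵀ *ᵥ y with hv
    have h1 : (u ⬝ᵥ v) ^ 2 ≤ (u ⬝ᵥ u) * (v ⬝ᵥ v) := by
      simp only [dotProduct, Fin.sum_univ_three]
      nlinarith [sq_nonneg (u 0 * v 1 - u 1 * v 0), sq_nonneg (u 0 * v 2 - u 2 * v 0),
        sq_nonneg (u 1 * v 2 - u 2 * v 1)]
    have h2 : 0 ≤ v ⬝ᵥ v := by rw [hsq]; positivity
    rw [hsq u] at h1
    nlinarith

end Pool.Agent.Helper22.Sym
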